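import Pool.Agent.N915.ML.Words

/-! # Normality and the multiples: the final statements -/

set_option autoImplicit false

namespace Pool.Agent.N915.ML

open Finset Filter Topology
open Pool.Agent.H534R3.UDist (UD Weyl ud_of_weyl)
open Pool.Agent.H534R3.Rota (ud_weyl)

/-- the criterion for words, at one stage -/
theorem stage (b k : ℕ) (hb : 2 ≤ b) (hbk : 3 ≤ b ^ k) (ε : ℝ) (hε : 0 < ε) :
    ∃ Q : ℕ, 1 ≤ Q ∧ ∃ δ : ℝ, 0 < δ ∧ ∀ (x : ℝ) (N : ℕ),
      (∀ m : ℕ, 1 ≤ m → m ≤ Q → ∀ w : ℕ → ℤ, IsWord b k w →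
        |(count b (m * x) k w N : ℝ) - N / (b : ℝ) ^ k| ≤ δ * N) →
      ∀ (l : ℕ) (w : ℕ → ℤ), IsWord b l w →
        |(count b x l w N : ℝ) - N / (b : ℝ) ^ l| ≤ ε * N := by
  obtain ⟨Q, hQ, δ, hδ, H⟩ := crit (b ^ k) hbk ε hε
  refine ⟨Q, hQ, δ, hδ, fun x N h l w hw => ?_⟩
  have hb1 : 1 ≤ b := by omega
  have h1 := H (range N) (fun n => x * (b : ℝ) ^ n) (fun m hm hmQ a ha => by
    obtain ⟨w', hw', hval⟩ := exists_word b hb1 k a ha
    have h2 := h m hm hmQ w' hw'
    rw [count_eq b hb1 (m * x) k w' hw' N, hval] at h2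
    have e : (fun n : ℕ => (m : ℝ) * (x * (b : ℝ) ^ n)) = fun n => (m : ℝ) * x * (b : ℝ) ^ n := by
      funext n
      ring
    rw [e, card_range]
    push_cast at h2 ⊢
    exact h2)
  have hv := val_bounds b w l hw
  have hP : (0 : ℝ) < ((b ^ l : ℕ) : ℝ) := by positivity
  have h2 := h1 ((val b w l : ℝ) / (b ^ l : ℕ)) (((val b w l : ℝ) + 1) / (b ^ l : ℕ))
    (div_nonneg (by exact_mod_cast hv.1) hP.le)
    (div_lt_div_of_pos_right (by linarith) hP) (by
      rw [div_le_one hP]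
      have : val b w l + 1 ≤ (b : ℤ) ^ l := hv.2
      exact_mod_cast this)
  rw [← count_eq b hb1 x l w hw N, card_range] at h2
  have e : (((val b w l : ℝ) + 1) / (b ^ l : ℕ) - (val b w l : ℝ) / (b ^ l : ℕ)) * N =
      N / (b : ℝ) ^ l := by
    push_cast
    ring
  rw [e] at h2
  exact h2

lemma count_tendsto (b k : ℕ) (hb : 1 ≤ b) (x : ℝ) (hud : UD fun n => x * (b : ℝ) ^ n) :
    Freq b k x := by
  intro w hw
  have hv := val_bounds b w k hw
  have hP : (0 : ℝ) < ((b ^ k : ℕ) : ℝ) := by positivity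
  have h1 := hud ((val b w k : ℝ) / (b ^ k : ℕ)) (((val b w k : ℝ) + 1) / (b ^ k : ℕ))
    (div_nonneg (by exact_mod_cast hv.1) hP.le)
    (div_le_div_of_nonneg_right (by linarith) hP.le) (by
      rw [div_le_one hP]
      have : val b w k + 1 ≤ (b : ℤ) ^ k := hv.2
      exact_mod_cast this)
  have e : ((val b w k : ℝ) + 1) / (b ^ k : ℕ) - (val b w k : ℝ) / (b ^ k : ℕ) =
      1 / (b : ℝ) ^ k := by
    push_cast
    ring
  rw [e] at h1
  refine h1.congr fun N => ?_
  rw [count_eq b hb x k w hw N]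
  rfl

lemma ud_of_normal (b : ℕ) (hb : 2 ≤ b) (x : ℝ) (h : Normal b x) : UD fun n => x * (b : ℝ) ^ n := by
  refine ud_of_cells b hb _ fun k hk a ha => ?_
  obtain ⟨w, hw, hval⟩ := exists_word b (by omega) k a ha
  have h1 := h k hk w hw
  refine h1.congr fun N => ?_
  rw [count_eq b (by omega) x k w hw N, hval]
  push_cast
  rfl

theorem iff_multiples (b k : ℕ) (hb : 2 ≤ b) (hbk : 3 ≤ b ^ k) (x : ℝ) :
    Normal b x ↔ ∀ m : ℕ, 1 ≤ m → Freq b k (m * x) := by
  constructor
  · intro h m hm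
    apply count_tendsto b k (by omega)
    apply ud_of_weyl
    intro h' hh'
    have h1 := ud_weyl _ (ud_of_normal b hb x h) (h' * m) (Nat.mul_pos (by omega) (by omega))
    refine h1.congr fun N => ?_
    congr 2
    refine sum_congr rfl fun n _ => ?_
    congr 1
    push_cast
    ring
  · intro h l _ w hw
    rw [Metric.tendsto_atTop]
    intro ε hε
    obtain ⟨Q, hQ, δ, hδ, H⟩ := stage b k hb hbk (ε / 2) (by positivity)
    have hwords : ∀ m ∈ Icc 1 Q, ∀ a ∈ range (b ^ k), ∀ᶠ N : ℕ in atTop, ∀ w' : ℕ → ℤ,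
        IsWord b k w' → val b w' k = a →
        |(count b (m * x) k w' N : ℝ) - N / (b : ℝ) ^ k| ≤ δ * N := by
      intro m hm a ha
      obtain ⟨w0, hw0, hval⟩ := exists_word b (by omega) k a (mem_range.1 ha)
      have h1 := h m (mem_Icc.1 hm).1 w0 hw0
      rw [Metric.tendsto_atTop] at h1
      obtain ⟨N0, hN0⟩ := h1 δ hδ
      filter_upwards [eventually_ge_atTop N0, eventually_gt_atTop 0] with N hN hN' w' hw' hval'
      have h2 := hN0 N hN
      rw [count_eq b (by omega) (m * x) k w' hw' N, hval', ← hval,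
        ← count_eq b (by omega) (m * x) k w0 hw0 N]
      have hNR : (0 : ℝ) < N := by exact_mod_cast hN'
      rw [Real.dist_eq] at h2
      have e : (count b (m * x) k w0 N : ℝ) - N / (b : ℝ) ^ k =
          ((count b (m * x) k w0 N : ℝ) / N - 1 / (b : ℝ) ^ k) * N := by
        field_simp
      rw [e, abs_mul, abs_of_pos hNR]
      exact mul_le_mul_of_nonneg_right h2.le hNR.le
    have hall : ∀ᶠ N : ℕ in atTop, ∀ m ∈ Icc 1 Q, ∀ a ∈ range (b ^ k), ∀ w' : ℕ → ℤ,
        IsWord b k w' → val b w' k = a →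
        |(count b (m * x) k w' N : ℝ) - N / (b : ℝ) ^ k| ≤ δ * N := by
      rw [eventually_all_finset]
      intro m hm
      rw [eventually_all_finset]
      intro a ha
      exact hwords m hm a ha
    obtain ⟨N0, hN0⟩ := eventually_atTop.1 (hall.and (eventually_gt_atTop 0))
    refine ⟨N0, fun N hN => ?_⟩
    obtain ⟨h1, h2⟩ := hN0 N hN
    have hNR : (0 : ℝ) < N := by exact_mod_cast h2
    have h3 := H x N (fun m hm hmQ w' hw' => by
      have hv := val_bounds b w' k hw'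
      refine h1 m (mem_Icc.2 ⟨hm, hmQ⟩) (val b w' k).toNat ?_ w' hw' (by omega)
      rw [mem_range]
      have : ((val b w' k).toNat : ℤ) < (b : ℤ) ^ k := by omega
      exact_mod_cast this) l w hw
    have e : (count b x l w N : ℝ) / N - 1 / (b : ℝ) ^ l =
        ((count b x l w N : ℝ) - N / (b : ℝ) ^ l) / N := by
      field_simp
    rw [Real.dist_eq, e, abs_div, abs_of_pos hNR, div_lt_iff₀ hNR]
    nlinarith

lemma count_ff (q : ℕ) (N : ℕ) :
    (vis (range N) (fun n => (q : ℝ) * tau * (2 : ℝ) ^ n) 0 (1 / 2) : ℝ) - N / 2 =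
      ∑ n ∈ range N, ff q n := by
  unfold vis ff
  rw [sum_sub_distrib, sum_const, card_range, nsmul_eq_mul, card_filter]
  push_cast
  have e : ∀ n ∈ range N, (if 0 ≤ Int.fract ((q : ℝ) * tau * 2 ^ n) ∧
      Int.fract ((q : ℝ) * tau * 2 ^ n) < 1 / 2 then (1 : ℝ) else 0) =
      if Int.fract ((q : ℝ) * tail n) < 1 / 2 then 1 else 0 := by
    intro n _
    rw [fract_mul]
    have := Int.fract_nonneg ((q : ℝ) * tail n)
    simp only [this, true_and]
  rw [sum_congr rfl e]
  ring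

/-- all multiples of the Thue–Morse number are simply normal in base two -/
theorem tau_multiples (q : ℕ) (hq : 1 ≤ q) : Freq 2 1 (q * tau) := by
  intro w hw
  have h0 := tendsto_ff q hq
  have h1 : Tendsto (fun N : ℕ => (vis (range N) (fun n => (q : ℝ) * tau * (2 : ℝ) ^ n) 0 (1 / 2) : ℝ)
      / N) atTop (𝓝 (1 / 2)) := by
    have h2 := h0.add_const (1 / 2 : ℝ)
    rw [zero_add] at h2
    refine h2.congr' ?_
    filter_upwards [eventually_gt_atTop 0] with N hN
    have hNR : (N : ℝ) ≠ 0 := by exact_mod_cast hN.ne'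
    rw [← count_ff]
    field_simp
    ring
  have hv := val_bounds 2 w 1 hw
  have hval : val 2 w 1 = w 0 := by
    show val 2 w 0 * 2 + w 0 = w 0
    show (0 : ℤ) * 2 + w 0 = w 0
    ring
  rw [hval] at hv
  have hcases : w 0 = 0 ∨ w 0 = 1 := by
    have h2 : w 0 < 2 := by simpa using hv.2
    omega
  have e : (1 / ((2 : ℕ) : ℝ) ^ 1 : ℝ) = 1 / 2 := by norm_num
  rw [e]
  have hc := fun N => count_eq 2 (by norm_num) (q * tau) 1 w hw N
  rcases hcases with h | h
  · refine h1.congr fun N => ?_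
    rw [hc N, hval, h]
    norm_num
  · have h2 : Tendsto (fun N : ℕ => (1 : ℝ) - (vis (range N)
        (fun n => (q : ℝ) * tau * (2 : ℝ) ^ n) 0 (1 / 2) : ℝ) / N) atTop (𝓝 (1 / 2)) := by
      have := h1.const_sub 1
      norm_num at this ⊢
      exact this
    refine h2.congr' ?_
    filter_upwards [eventually_gt_atTop 0] with N hN
    have hNR : (N : ℝ) ≠ 0 := by exact_mod_cast hN.ne'
    rw [hc N, hval, h]
    have h3 := vis_add (range N) (fun n => (q : ℝ) * tau * (2 : ℝ) ^ n) 0 (1 / 2) 1 (by norm_num)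
      (by norm_num)
    have h4 : vis (range N) (fun n => (q : ℝ) * tau * (2 : ℝ) ^ n) 0 1 = N := by
      unfold vis
      rw [filter_true_of_mem (fun n _ => ⟨Int.fract_nonneg _, Int.fract_lt_one _⟩), card_range]
    rw [h4] at h3
    have h5 : (N : ℝ) = (vis (range N) (fun n => (q : ℝ) * tau * (2 : ℝ) ^ n) 0 (1 / 2) : ℝ) +
        vis (range N) (fun n => (q : ℝ) * tau * (2 : ℝ) ^ n) (1 / 2) 1 := by exact_mod_cast h3
    have h6 : (((1 : ℤ) : ℝ) / ((2 ^ 1 : ℕ) : ℝ)) = 1 / 2 := by norm_num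
    have h7 : ((((1 : ℤ) : ℝ) + 1) / ((2 ^ 1 : ℕ) : ℝ)) = 1 := by norm_num
    rw [h6, h7]
    rw [eq_div_iff hNR, sub_mul, div_mul_cancel₀ _ hNR, one_mul]
    push_cast
    linarith

/-- the Thue–Morse number is not normal: the word `000` does not occur -/
theorem tau_not_normal : ¬ Normal 2 tau := by
  intro h
  have h1 := h 3 (by norm_num) (fun _ => 0) (fun j _ => by norm_num)
  have h2 : ∀ N, count 2 tau 3 (fun _ => 0) N = 0 := by
    intro N
    rw [count_eq 2 (by norm_num) tau 3 _ (fun j _ => by norm_num) N]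
    unfold vis
    rw [card_eq_zero, filter_eq_empty_iff]
    rintro n _ ⟨-, h4⟩
    have h5 : Int.fract (tau * ((2 : ℕ) : ℝ) ^ n) = tail n := by
      have := fract_mul 1 n
      rw [Nat.cast_one, one_mul, one_mul] at this
      push_cast
      rw [this, Int.fract_eq_self.2 ⟨tail_nonneg n, by linarith [(tail_bounds n).2]⟩]
    rw [h5] at h4
    have h6 : val 2 (fun _ => 0) 3 = 0 := by decide
    rw [h6] at h4
    norm_num at h4
    linarith [(tail_bounds n).1]
  simp only [h2] at h1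
  have h3 : Tendsto (fun _ : ℕ => (0 : ℝ)) atTop (𝓝 (1 / ((2 : ℕ) : ℝ) ^ 3)) := by
    refine h1.congr fun N => ?_
    simp
  have h4 := tendsto_nhds_unique h3 tendsto_const_nhds
  norm_num at h4

end Pool.Agent.N915.ML
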