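import Pool.Agent.H419R2.Saw
import Pool.Agent.H807R2.Dav1

/-! # Approximation of the sawtooth function by its Fourier series along linear sequences -/

set_option autoImplicit false

namespace Pool.Agent.N915.ML

open Finset
open Pool.Agent.H807R2.Dav (ee norm_ee ee_add ee_zero ee_int ee_add_int ee_pow ee_eq)
open H419R2.Saw (B B_neg B_add_int B_abs key)

/-- the sawtooth function `{t} - 1/2` -/
noncomputable def psi (t : ℝ) : ℝ := Int.fract t - 1 / 2

lemma psi_abs (t : ℝ) : |psi t| ≤ 1 / 2 := by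
  unfold psi
  have h1 := Int.fract_nonneg t
  have h2 := Int.fract_lt_one t
  rw [abs_le]
  constructor <;> linarith

lemma psi_add_int (t : ℝ) (m : ℤ) : psi (t + m) = psi t := by
  unfold psi
  rw [Int.fract_add_intCast]

/-- the error of the truncated Fourier series -/
noncomputable def err (K : ℕ) (t : ℝ) : ℝ := |psi t + B K t|

lemma err_nonneg (K : ℕ) (t : ℝ) : 0 ≤ err K t := abs_nonneg _

lemma err_le (K : ℕ) (t : ℝ) : err K t ≤ 3 / 2 := by
  unfold err
  have h1 := psi_abs t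
  have h2 := B_abs K t
  have h3 := abs_add_le (psi t) (B K t)
  linarith

lemma err_small (K : ℕ) (hK : 1 ≤ K) (t δ : ℝ) (hδ : 0 < δ) (h : δ ≤ |t - round t|) :
    err K t ≤ 1 / (K * δ) := by
  set u := t - round t with hu
  have hK' : (1 : ℝ) ≤ K := by exact_mod_cast hK
  have hu2 : |u| ≤ 1 / 2 := abs_sub_round t
  have ht : t = u + (round t : ℤ) := by rw [hu]; ring
  have e1 : B K t = B K u := by
    conv_lhs => rw [ht]
    rw [B_add_int]
  have e2 : psi t = psi u := by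
    conv_lhs => rw [ht]
    rw [psi_add_int]
  have hpi := Real.pi_gt_three
  have hb : ∀ v : ℝ, δ ≤ v → 1 / ((2 * (K : ℝ) + 1) * Real.pi * v) ≤ 1 / (K * δ) := by
    intro v hv
    apply one_div_le_one_div_of_le (by positivity)
    have h1 : (K : ℝ) ≤ (2 * K + 1) * Real.pi := by nlinarith
    calc (K : ℝ) * δ ≤ ((2 * K + 1) * Real.pi) * δ := by
          apply mul_le_mul_of_nonneg_right h1 hδ.le
      _ ≤ _ := by
          apply mul_le_mul_of_nonneg_left hv
          positivity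
  unfold err
  rw [e1, e2]
  rcases abs_cases u with ⟨h3, h4⟩ | ⟨h3, h4⟩
  · rw [h3] at h hu2
    have hpos : 0 < u := by linarith
    have hf : psi u = u - 1 / 2 := by
      unfold psi
      rw [Int.fract_eq_self.2 ⟨h4, by linarith⟩]
    have h5 := key K hpos hu2
    have h6 : psi u + B K u = B K u - (1 / 2 - u) := by rw [hf]; ring
    rw [h6]
    exact h5.trans (hb u h)
  · rw [h3] at h hu2
    have hpos : 0 < -u := by linarith
    have hf : psi u = u + 1 / 2 := by
      unfold psi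
      have : Int.fract u = u + 1 := by
        rw [Int.fract_eq_iff]
        exact ⟨by linarith, by linarith, ⟨-1, by push_cast; ring⟩⟩
      rw [this]
      ring
    have h5 := key K hpos hu2
    rw [B_neg] at h5
    have h6 : psi u + B K u = -(-B K u - (1 / 2 - -u)) := by rw [hf]; ring
    rw [h6, abs_neg]
    exact h5.trans (hb (-u) h)

/-- the integers in an interval -/
lemma card_ints (A l : ℝ) (hl : 0 ≤ l) (S : Finset ℤ) (hS : ∀ z ∈ S, A < z ∧ (z : ℝ) < A + l) :
    (S.card : ℝ) ≤ l + 1 := by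
  have h1 : S ⊆ Ioc ⌊A⌋ ⌊A + l⌋ := by
    intro z hz
    obtain ⟨h2, h3⟩ := hS z hz
    rw [mem_Ioc]
    refine ⟨?_, Int.le_floor.2 h3.le⟩
    exact_mod_cast (Int.floor_le A).trans_lt h2
  have h2 := card_le_card h1
  rw [Int.card_Ioc] at h2
  have h3 : ⌊A⌋ ≤ ⌊A + l⌋ := Int.floor_mono (by linarith)
  have h4 : ((⌊A + l⌋ - ⌊A⌋).toNat : ℝ) = (⌊A + l⌋ : ℝ) - ⌊A⌋ := by
    have : (((⌊A + l⌋ - ⌊A⌋).toNat : ℤ) : ℝ) = ((⌊A + l⌋ - ⌊A⌋ : ℤ) : ℝ) := by
      rw [Int.toNat_of_nonneg (by omega)]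
    rw [← Int.cast_natCast, this]
    push_cast
    ring
  have h5 : (S.card : ℝ) ≤ ((⌊A + l⌋ - ⌊A⌋).toNat : ℝ) := by exact_mod_cast h2
  have h6 := Int.floor_le (A + l)
  have h7 := Int.lt_floor_add_one A
  linarith

/-- the number of close returns in a block of length `q` -/
lemma card_close (q : ℕ) (hq : 1 ≤ q) (a : ℤ) (hc : IsCoprime a (q : ℤ)) (y γ δ : ℝ)
    (hδ : 0 < δ) (hy : |y - a / q| ≤ 1 / (q : ℝ) ^ 2) :
    (((range q).filter (fun i : ℕ => |γ + i * y - round (γ + i * y)| < δ)).card : ℝ) ≤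
      2 * δ * q + 3 := by
  have hq0 : (0 : ℝ) < q := by exact_mod_cast hq
  set S := (range q).filter (fun i : ℕ => |γ + i * y - round (γ + i * y)| < δ) with hS
  set f : ℕ → ℤ := fun i => i * a - q * round (γ + i * y) with hf
  have hinj : Set.InjOn f S := by
    intro i hi j hj hij
    have hi' : i < q := mem_range.1 (mem_filter.1 hi).1
    have hj' : j < q := mem_range.1 (mem_filter.1 hj).1
    simp only [hf] at hij
    have h1 : (q : ℤ) ∣ a * ((i : ℤ) - j) :=
      ⟨round (γ + i * y) - round (γ + j * y), by linarith⟩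
    have h2 : (q : ℤ) ∣ (i : ℤ) - j := hc.symm.dvd_of_dvd_mul_left h1
    have h3 : |(i : ℤ) - j| < q := by
      rw [abs_lt]
      constructor <;> omega
    have h4 := Int.eq_zero_of_abs_lt_dvd h2 h3
    omega
  have hcard : (S.image f).card = S.card := card_image_of_injOn hinj
  rw [← hcard]
  have h := card_ints (-(q : ℝ) * (γ + δ + 1 / q)) (2 * δ * q + 2) (by positivity) (S.image f) ?_
  · linarith
  · intro z hz
    obtain ⟨i, hi, rfl⟩ := mem_image.1 hz
    have hi' : i < q := mem_range.1 (mem_filter.1 hi).1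
    have h1 := (mem_filter.1 hi).2
    have hiR : (i : ℝ) ≤ q := by exact_mod_cast hi'.le
    have h2 : |(i : ℝ) * (y - a / q)| ≤ 1 / q := by
      rw [abs_mul, abs_of_nonneg (Nat.cast_nonneg i)]
      calc (i : ℝ) * |y - a / q| ≤ q * (1 / (q : ℝ) ^ 2) :=
            mul_le_mul hiR hy (abs_nonneg _) hq0.le
        _ = 1 / q := by field_simp
    have e1 : ((f i : ℤ) : ℝ) = q * ((γ + i * y - round (γ + i * y)) - i * (y - a / q) - γ) := by
      simp only [hf]
      push_cast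
      field_simp
      ring
    rw [e1]
    obtain ⟨h3, h4⟩ := abs_lt.1 h1
    obtain ⟨h5, h6⟩ := abs_le.1 h2
    constructor
    · have : -(δ + 1 / q) < (γ + i * y - round (γ + i * y)) - i * (y - a / q) := by linarith
      nlinarith
    · have h7 : (γ + i * y - round (γ + i * y)) - i * (y - a / q) < δ + 1 / q := by linarith
      have h8 : (q : ℝ) * ((γ + i * y - round (γ + i * y)) - i * (y - a / q) - γ) <
          q * (δ + 1 / q - γ) := by
        apply mul_lt_mul_of_pos_left _ hq0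
        linarith
      refine h8.trans_le (le_of_eq ?_)
      field_simp
      ring

lemma block (q : ℕ) (hq : 1 ≤ q) (a : ℤ) (hc : IsCoprime a (q : ℤ)) (y γ : ℝ) (N : ℕ) (hN : q ≤ N)
    (hy : |y - a / q| ≤ 1 / (q : ℝ) ^ 2) :
    ∑ i ∈ range q, err (N ^ 2) (γ + i * y) ≤ 9 := by
  have hq0 : (1 : ℝ) ≤ q := by exact_mod_cast hq
  have hNR : (q : ℝ) ≤ N := by exact_mod_cast hN
  have hN0 : (0 : ℝ) < N := by linarith
  have h1 := card_close q hq a hc y γ (1 / N) (by positivity) hy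
  rw [← sum_filter_add_sum_filter_not (range q)
    (fun i : ℕ => |γ + i * y - round (γ + i * y)| < 1 / N)]
  have h2 : ∑ i ∈ (range q).filter (fun i : ℕ => |γ + i * y - round (γ + i * y)| < 1 / N),
      err (N ^ 2) (γ + i * y) ≤ (2 * (1 / N) * q + 3) * (3 / 2) := by
    refine (sum_le_sum fun i _ => err_le _ _).trans ?_
    rw [sum_const, nsmul_eq_mul]
    exact mul_le_mul_of_nonneg_right h1 (by norm_num)
  have h3 : ∑ i ∈ (range q).filter (fun i : ℕ => ¬ |γ + i * y - round (γ + i * y)| < 1 / N),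
      err (N ^ 2) (γ + i * y) ≤ q * (1 / N) := by
    have h4 : ∀ i ∈ (range q).filter (fun i : ℕ => ¬ |γ + i * y - round (γ + i * y)| < 1 / N),
        err (N ^ 2) (γ + i * y) ≤ 1 / N := by
      intro i hi
      have h5 := err_small (N ^ 2) (Nat.one_le_iff_ne_zero.2 (by
        have : 0 < N := by omega
        positivity)) (γ + i * y) (1 / N) (by positivity) (not_lt.1 (mem_filter.1 hi).2)
      refine h5.trans (le_of_eq ?_)
      push_cast
      field_simp
    refine (sum_le_sum h4).trans ?_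
    rw [sum_const, nsmul_eq_mul]
    apply mul_le_mul_of_nonneg_right _ (by positivity)
    have := card_le_card (filter_subset (fun i : ℕ => ¬ |γ + i * y - round (γ + i * y)| < 1 / N)
      (range q))
    rw [card_range] at this
    exact_mod_cast this
  have h4 : (q : ℝ) * (1 / N) ≤ 1 := by
    rw [mul_one_div, div_le_one hN0]
    exact hNR
  nlinarith

lemma sum_err (q : ℕ) (hq : 1 ≤ q) (a : ℤ) (hc : IsCoprime a (q : ℤ)) (y β : ℝ) (N : ℕ)
    (hN : q ≤ N) (hy : |y - a / q| ≤ 1 / (q : ℝ) ^ 2) :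
    ∑ m ∈ Icc 1 N, err (N ^ 2) (m * y + β) ≤ 9 * (N / q + 1) := by
  have hq0 : (0 : ℝ) < q := by exact_mod_cast hq
  have hb : ∀ J : ℕ, ∑ m ∈ range (J * q), err (N ^ 2) (m * y + β) ≤ 9 * J := by
    intro J
    induction J with
    | zero => simp
    | succ J ih =>
      rw [Nat.succ_mul, sum_range_add]
      have h1 := block q hq a hc y (((J * q : ℕ) : ℝ) * y + β) N hN hy
      have h2 : ∑ i ∈ range q, err (N ^ 2) (((J * q + i : ℕ) : ℝ) * y + β) ≤ 9 := by
        refine le_trans (le_of_eq ?_) h1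
        refine sum_congr rfl fun i _ => ?_
        congr 1
        push_cast
        ring
      push_cast at h2 ih ⊢
      linarith
  have h1 : Icc 1 N ⊆ range ((N / q + 1) * q) := by
    intro m hm
    rw [mem_Icc] at hm
    rw [mem_range]
    have : N < (N / q + 1) * q := by
      have := Nat.lt_div_mul_add (a := N) (b := q) (by omega)
      rw [Nat.add_mul, one_mul]
      exact this
    omega
  refine (sum_le_sum_of_subset_of_nonneg h1 fun m _ _ => err_nonneg _ _).trans ((hb _).trans ?_)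
  have h2 : ((N / q : ℕ) : ℝ) ≤ N / q := Nat.cast_div_le
  push_cast
  linarith

/-- the Fourier part -/
lemma fourier_part {ι : Type*} (S : Finset ι) (w : ι → ℂ) (t : ι → ℝ) (K : ℕ) (hK : 1 ≤ K) (D : ℝ)
    (hD : ∀ k : ℤ, ‖∑ m ∈ S, w m * ee (k * t m)‖ ≤ D) :
    ‖∑ m ∈ S, w m * (B K (t m) : ℂ)‖ ≤ D * (1 + Real.log K) := by
  have hD0 : 0 ≤ D := (norm_nonneg _).trans (hD 0)
  have hsin : ∀ (k : ℕ) (s : ℝ), ((Real.sin (2 * Real.pi * k * s) : ℝ) : ℂ) =
      (ee (((k : ℤ) : ℝ) * s) - ee (((-(k : ℤ) : ℤ) : ℝ) * s)) / (2 * Complex.I) := by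
    intro k s
    rw [ee_eq, ee_eq, Complex.exp_mul_I, Complex.exp_mul_I]
    push_cast
    have e1 : (2 * (Real.pi : ℂ) * (-(k : ℂ) * s)) = -(2 * Real.pi * (k * s)) := by ring
    have e2 : (2 * (Real.pi : ℂ) * (k : ℂ) * s) = 2 * Real.pi * (k * s) := by ring
    rw [e1, e2, Complex.cos_neg, Complex.sin_neg]
    have hI : (2 * Complex.I) ≠ 0 := by simp
    field_simp
    ring
  have e : ∑ m ∈ S, w m * (B K (t m) : ℂ) = (1 / Real.pi : ℂ) * ∑ k ∈ Icc 1 K, (1 / (k : ℂ)) *
      ((∑ m ∈ S, w m * ee (((k : ℤ) : ℝ) * t m) - ∑ m ∈ S, w m * ee (((-(k : ℤ) : ℤ) : ℝ) * t m)) /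
        (2 * Complex.I)) := by
    unfold B
    push_cast
    simp only [mul_sum, sum_div, ← sum_sub_distrib]
    rw [sum_comm]
    refine sum_congr rfl fun k _ => ?_
    refine sum_congr rfl fun m _ => ?_
    have := hsin k (t m)
    push_cast at this
    rw [this]
    ring
  rw [e, norm_mul]
  have hpi := Real.pi_gt_three
  have h1 : ‖(1 / Real.pi : ℂ)‖ ≤ 1 := by
    rw [norm_div, norm_one, Complex.norm_real, Real.norm_of_nonneg Real.pi_pos.le,
      div_le_one Real.pi_pos]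
    linarith
  have h2 : ‖∑ k ∈ Icc 1 K, (1 / (k : ℂ)) *
      ((∑ m ∈ S, w m * ee (((k : ℤ) : ℝ) * t m) - ∑ m ∈ S, w m * ee (((-(k : ℤ) : ℤ) : ℝ) * t m)) /
        (2 * Complex.I))‖ ≤ D * (1 + Real.log K) := by
    refine (norm_sum_le _ _).trans ?_
    have h3 : ∀ k ∈ Icc 1 K, ‖(1 / (k : ℂ)) *
      ((∑ m ∈ S, w m * ee (((k : ℤ) : ℝ) * t m) - ∑ m ∈ S, w m * ee (((-(k : ℤ) : ℤ) : ℝ) * t m)) /
        (2 * Complex.I))‖ ≤ D * (k : ℝ)⁻¹ := by
      intro k hk
      rw [norm_mul, norm_div, norm_div, norm_one, Complex.norm_natCast, norm_mul, Complex.norm_I,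
        Complex.norm_ofNat, mul_one, one_div, mul_comm D]
      apply mul_le_mul_of_nonneg_left _ (by positivity)
      have h4 := norm_sub_le (∑ m ∈ S, w m * ee (((k : ℤ) : ℝ) * t m))
        (∑ m ∈ S, w m * ee (((-(k : ℤ) : ℤ) : ℝ) * t m))
      have h5 := hD k
      have h6 := hD (-k)
      rw [div_le_iff₀ (by norm_num)]
      linarith
    refine (sum_le_sum h3).trans ?_
    rw [← mul_sum]
    apply mul_le_mul_of_nonneg_left _ hD0
    have h4 := harmonic_le_one_add_log K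
    rw [harmonic_eq_sum_Icc] at h4
    push_cast at h4
    exact h4
  calc _ ≤ 1 * (D * (1 + Real.log K)) := mul_le_mul h1 h2 (norm_nonneg _) (by norm_num)
    _ = _ := one_mul _

lemma minor {ι : Type*} (S : Finset ι) (w : ι → ℂ) (hw : ∀ m ∈ S, ‖w m‖ ≤ 1) (t : ι → ℝ) (K : ℕ)
    (hK : 1 ≤ K) (D : ℝ) (hD : ∀ k : ℤ, ‖∑ m ∈ S, w m * ee (k * t m)‖ ≤ D) :
    ‖∑ m ∈ S, w m * (psi (t m) : ℂ)‖ ≤ D * (1 + Real.log K) + ∑ m ∈ S, err K (t m) := by
  have e : ∑ m ∈ S, w m * (psi (t m) : ℂ) =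
      ∑ m ∈ S, w m * ((psi (t m) + B K (t m) : ℝ) : ℂ) - ∑ m ∈ S, w m * (B K (t m) : ℂ) := by
    rw [← sum_sub_distrib]
    refine sum_congr rfl fun m _ => ?_
    push_cast
    ring
  rw [e]
  refine (norm_sub_le _ _).trans ?_
  have h1 := fourier_part S w t K hK D hD
  have h2 : ‖∑ m ∈ S, w m * ((psi (t m) + B K (t m) : ℝ) : ℂ)‖ ≤ ∑ m ∈ S, err K (t m) := by
    refine (norm_sum_le _ _).trans (sum_le_sum fun m hm => ?_)
    rw [norm_mul, Complex.norm_real, Real.norm_eq_abs]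
    calc _ ≤ 1 * |psi (t m) + B K (t m)| := mul_le_mul_of_nonneg_right (hw m hm) (abs_nonneg _)
      _ = _ := one_mul _
  linarith

end Pool.Agent.N915.ML
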