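import Pool.Agent.N915.ML.Deriv
import Pool.Agent.R485.Trans.Saw

/-! # Equidistribution from the images of `q` intervals -/

set_option autoImplicit false

namespace Pool.Agent.N915.ML

open Finset Filter Topology
open Pool.Agent.H807R2.Dav (ee norm_ee ee_add ee_zero ee_int ee_add_int ee_pow ee_eq)
open Pool.Agent.H373R2.T7 (muR muR_abs sup_mu ev_log' ev_L')

/-- the number of `n` in `S` for which the fractional part of `u n` is in `[s, t)` -/
noncomputable def vis {ι : Type*} (S : Finset ι) (u : ι → ℝ) (s t : ℝ) : ℕ :=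
  (S.filter fun n => s ≤ Int.fract (u n) ∧ Int.fract (u n) < t).card

section
variable {q : ℕ} (χ : DirichletCharacter ℂ q)

/-- the values of the step function -/
noncomputable def VV (a : ℕ) : ℂ := ∑ j ∈ range q, cf χ j * ((((a + j) % q : ℕ) : ℂ) / q)

lemma norm_VV (hq : 1 ≤ q) (a : ℕ) : ‖VV χ a‖ ≤ AA χ := by
  have hq0 : (0 : ℝ) < q := by exact_mod_cast hq
  unfold VV AA
  refine (norm_sum_le _ _).trans (sum_le_sum fun j _ => ?_)
  rw [norm_mul, norm_div, Complex.norm_natCast, Complex.norm_natCast]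
  have : (((a + j) % q : ℕ) : ℝ) / q ≤ 1 := by
    rw [div_le_one hq0]
    exact_mod_cast (Nat.mod_lt _ (by omega)).le
  calc ‖cf χ j‖ * ((((a + j) % q : ℕ) : ℝ) / q) ≤ ‖cf χ j‖ * 1 :=
        mul_le_mul_of_nonneg_left this (norm_nonneg _)
    _ = _ := mul_one _

lemma sum_mod (q : ℕ) (hq : 1 ≤ q) (j : ℕ) :
    ∑ a ∈ range q, (a + j) % q = ∑ a ∈ range q, a := by
  refine sum_nbij (fun a => (a + j) % q) ?_ ?_ ?_ ?_
  · intro a _
    exact mem_range.2 (Nat.mod_lt _ (by omega))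
  · intro a ha b hb h
    have ha' : a < q := mem_range.1 (mem_coe.1 ha)
    have hb' : b < q := mem_range.1 (mem_coe.1 hb)
    have h1 : a + j ≡ b + j [MOD q] := h
    have h2 : a ≡ b [MOD q] := Nat.ModEq.add_right_cancel' j h1
    unfold Nat.ModEq at h2
    rwa [Nat.mod_eq_of_lt ha', Nat.mod_eq_of_lt hb'] at h2
  · intro b hb
    have hb' : b < q := mem_range.1 (mem_coe.1 hb)
    refine ⟨(b + (q - j % q)) % q, mem_coe.2 (mem_range.2 (Nat.mod_lt _ (by omega))), ?_⟩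
    have h1 : j % q < q := Nat.mod_lt _ (by omega)
    show ((b + (q - j % q)) % q + j) % q = b
    rw [Nat.mod_add_mod, Nat.add_mod, ← Nat.add_mod_mod]
    have h2 : ((b + (q - j % q)) + j % q) % q = b := by
      rw [show b + (q - j % q) + j % q = b + q by omega, Nat.add_mod_right, Nat.mod_eq_of_lt hb']
    rw [← Nat.add_mod, Nat.add_mod_mod] at *
    exact h2
  · intro a _
    rfl

lemma sum_VV (hq : 2 ≤ q) : ∑ a ∈ range q, VV χ a = 0 := by
  unfold VV
  rw [sum_comm]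
  have h1 : ∀ j ∈ range q, ∑ a ∈ range q, cf χ j * ((((a + j) % q : ℕ) : ℂ) / q) =
      cf χ j * ((∑ a ∈ range q, (a : ℂ)) / q) := by
    intro j _
    rw [← mul_sum, ← sum_div]
    have := sum_mod q (by omega) j
    have h2 : ∑ a ∈ range q, (((a + j) % q : ℕ) : ℂ) = ∑ a ∈ range q, (a : ℂ) := by
      rw [← Nat.cast_sum, this, Nat.cast_sum]
    rw [h2]
  rw [sum_congr rfl h1, ← sum_mul, cf_sum χ hq, zero_mul]

lemma Phi_eq (hq : 2 ≤ q) (y : ℝ) (a : ℕ) (ha : a < q) (h1 : (a : ℝ) / q ≤ Int.fract y)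
    (h2 : Int.fract y < ((a : ℝ) + 1) / q) : Phi χ y = VV χ a := by
  have hq0 : (0 : ℝ) < q := by exact_mod_cast (by omega : 0 < q)
  have hqC : (q : ℂ) ≠ 0 := by exact_mod_cast hq0.ne'
  set s := Int.fract y - a / q with hs
  have hs0 : 0 ≤ s := by linarith
  have hs1 : s < 1 / q := by
    have : ((a : ℝ) + 1) / q = a / q + 1 / q := by ring
    rw [hs]
    linarith
  have h3 : ∀ j ∈ range q, ((psi (y + j / q) : ℝ) : ℂ) =
      (((a + j) % q : ℕ) : ℂ) / q + ((s - 1 / 2 : ℝ) : ℂ) := by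
    intro j _
    have h4 : Int.fract (y + j / q) = (((a + j) % q : ℕ) : ℝ) / q + s := by
      rw [Int.fract_eq_iff]
      have h5 : (((a + j) % q : ℕ) : ℝ) + 1 ≤ q := by exact_mod_cast Nat.mod_lt (a + j) (by omega)
      refine ⟨by positivity, ?_, ⟨⌊y⌋ + ((a + j) / q : ℕ), ?_⟩⟩
      · have : (((a + j) % q : ℕ) : ℝ) / q ≤ 1 - 1 / q := by
          rw [le_sub_iff_add_le, ← add_div, div_le_one hq0]
          exact h5
        linarith
      · have h6 : ((a + j : ℕ) : ℝ) = ((a + j) / q : ℕ) * q + ((a + j) % q : ℕ) := by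
          have := Nat.div_add_mod (a + j) q
          have h7 : a + j = (a + j) / q * q + (a + j) % q := by rw [mul_comm]; omega
          exact_mod_cast h7
        have h7 : y = ⌊y⌋ + Int.fract y := (Int.floor_add_fract y).symm
        have h8 : Int.fract y = a / q + s := by rw [hs]; ring
        generalize (a + j) / q = k at h6
        generalize (a + j) % q = r at h6
        push_cast at h6 ⊢
        have h9 : (j : ℝ) / q = k + r / q - a / q := by
          field_simp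
          linarith
        rw [h9]
        linarith
    unfold psi
    rw [h4]
    push_cast
    ring
  unfold Phi VV
  have h4 : ∀ j ∈ range q, cf χ j * ((psi (y + j / q) : ℝ) : ℂ) =
      cf χ j * ((((a + j) % q : ℕ) : ℂ) / q) + cf χ j * ((s - 1 / 2 : ℝ) : ℂ) := by
    intro j hj
    rw [h3 j hj]
    ring
  rw [sum_congr rfl h4, sum_add_distrib, ← sum_mul, cf_sum χ hq, zero_mul, add_zero]

lemma exists_cell (hq : 1 ≤ q) (y : ℝ) : ∃ a < q, (a : ℝ) / q ≤ Int.fract y ∧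
    Int.fract y < ((a : ℝ) + 1) / q := by
  have hq0 : (0 : ℝ) < q := by exact_mod_cast hq
  have h0 := Int.fract_nonneg y
  have h1 := Int.fract_lt_one y
  refine ⟨⌊(q : ℝ) * Int.fract y⌋₊, ?_, ?_, ?_⟩
  · rw [Nat.floor_lt (by positivity)]
    nlinarith
  · rw [div_le_iff₀ hq0, mul_comm (Int.fract y)]
    exact Nat.floor_le (by positivity)
  · rw [lt_div_iff₀ hq0, mul_comm (Int.fract y)]
    exact Nat.lt_floor_add_one _

lemma cell_unique (hq : 1 ≤ q) {y : ℝ} {a b : ℕ} (h1 : (a : ℝ) / q ≤ y) (h2 : y < ((a : ℝ) + 1) / q)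
    (h3 : (b : ℝ) / q ≤ y) (h4 : y < ((b : ℝ) + 1) / q) : a = b := by
  have hq0 : (0 : ℝ) < q := by exact_mod_cast hq
  rw [div_le_iff₀ hq0] at h1 h3
  rw [lt_div_iff₀ hq0] at h2 h4
  have h5 : (a : ℝ) < b + 1 := by linarith
  have h6 : (b : ℝ) < a + 1 := by linarith
  have h7 : a < b + 1 := by exact_mod_cast h5
  have h8 : b < a + 1 := by exact_mod_cast h6
  omega

lemma Phi_sum (hq : 2 ≤ q) {ι : Type*} (S : Finset ι) (u : ι → ℝ) :
    ∑ n ∈ S, Phi χ (u n) =
      ∑ a ∈ range q, VV χ a * ((vis S u ((a : ℝ) / q) (((a : ℝ) + 1) / q) : ℂ) - S.card / q) := by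
  classical
  have h1 : ∑ a ∈ range q, VV χ a * ((vis S u ((a : ℝ) / q) (((a : ℝ) + 1) / q) : ℂ) -
      S.card / q) = ∑ a ∈ range q, VV χ a * (vis S u ((a : ℝ) / q) (((a : ℝ) + 1) / q) : ℂ) := by
    simp only [mul_sub]
    rw [sum_sub_distrib, ← sum_mul, sum_VV χ hq, zero_mul, sub_zero]
  rw [h1]
  unfold vis
  have h2 : ∀ a ∈ range q, VV χ a * (((S.filter fun n => (a : ℝ) / q ≤ Int.fract (u n) ∧
      Int.fract (u n) < ((a : ℝ) + 1) / q).card : ℕ) : ℂ) =
      ∑ n ∈ S, if (a : ℝ) / q ≤ Int.fract (u n) ∧ Int.fract (u n) < ((a : ℝ) + 1) / q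
        then VV χ a else 0 := by
    intro a _
    rw [← sum_filter, sum_const, nsmul_eq_mul, mul_comm]
  rw [sum_congr rfl h2, sum_comm]
  refine sum_congr rfl fun n _ => ?_
  obtain ⟨a, ha, h3, h4⟩ := exists_cell (q := q) (by omega) (u n)
  rw [sum_eq_single a]
  · rw [if_pos ⟨h3, h4⟩]
    exact Phi_eq χ hq (u n) a ha h3 h4
  · intro b _ hb
    rw [if_neg]
    rintro ⟨h5, h6⟩
    exact hb (cell_unique (by omega) h5 h6 h3 h4)
  · intro h
    exact absurd (mem_range.2 ha) h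

lemma SS_sum (hq : 2 ≤ q) {ι : Type*} (S : Finset ι) (u : ι → ℝ) (M : ℕ) (δ : ℝ)
    (h : ∀ m, 1 ≤ m → m ≤ M → ∀ a < q,
      |(vis S (fun n => m * u n) ((a : ℝ) / q) (((a : ℝ) + 1) / q) : ℝ) - S.card / q| ≤
        δ * S.card) :
    ‖∑ n ∈ S, SS χ M (u n)‖ ≤ M * (q * (AA χ * (δ * S.card))) := by
  unfold SS
  rw [sum_comm]
  refine (norm_sum_le _ _).trans ?_
  have h1 : ∀ m ∈ Icc 1 M, ‖∑ n ∈ S, (1 / (m : ℂ)) * (((muR m : ℝ) : ℂ) * χ (m : ZMod q) *
      Phi χ (m * u n))‖ ≤ q * (AA χ * (δ * S.card)) := by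
    intro m hm
    rw [mem_Icc] at hm
    have h2 : ∑ n ∈ S, (1 / (m : ℂ)) * (((muR m : ℝ) : ℂ) * χ (m : ZMod q) *
      Phi χ (m * u n)) = ((1 / (m : ℂ)) * ((muR m : ℝ) : ℂ) * χ (m : ZMod q)) *
        ∑ n ∈ S, Phi χ (m * u n) := by
      rw [mul_sum]
      refine sum_congr rfl fun n _ => ?_
      ring
    rw [h2, norm_mul]
    have h3 : ‖(1 / (m : ℂ)) * ((muR m : ℝ) : ℂ) * χ (m : ZMod q)‖ ≤ 1 := by
      rw [norm_mul, norm_mul, norm_div, norm_one, Complex.norm_natCast, Complex.norm_real,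
        Real.norm_eq_abs]
      have hm1 : (1 : ℝ) ≤ m := by exact_mod_cast hm.1
      have h4 : 1 / (m : ℝ) ≤ 1 := by
        rw [div_le_one (by linarith)]
        exact hm1
      have h5 : 1 / (m : ℝ) * |muR m| ≤ 1 * 1 :=
        mul_le_mul h4 (muR_abs m) (abs_nonneg _) (by norm_num)
      calc 1 / (m : ℝ) * |muR m| * ‖χ (m : ZMod q)‖ ≤ (1 * 1) * 1 :=
            mul_le_mul h5 (norm_chi χ _) (norm_nonneg _) (by norm_num)
        _ = 1 := by norm_num
    have h4 : ‖∑ n ∈ S, Phi χ (m * u n)‖ ≤ q * (AA χ * (δ * S.card)) := by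
      rw [Phi_sum χ hq S (fun n => m * u n)]
      refine (norm_sum_le _ _).trans ?_
      have h5 : ∀ a ∈ range q, ‖VV χ a * ((vis S (fun n => m * u n) ((a : ℝ) / q)
          (((a : ℝ) + 1) / q) : ℂ) - S.card / q)‖ ≤ AA χ * (δ * S.card) := by
        intro a ha
        rw [norm_mul]
        apply mul_le_mul (norm_VV χ (by omega) a) _ (norm_nonneg _) (AA_nonneg χ)
        have h6 := h m hm.1 hm.2 a (mem_range.1 ha)
        have h7 : ((vis S (fun n => m * u n) ((a : ℝ) / q) (((a : ℝ) + 1) / q) : ℂ) -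
            S.card / q) = (((vis S (fun n => m * u n) ((a : ℝ) / q) (((a : ℝ) + 1) / q) : ℝ) -
            S.card / q : ℝ) : ℂ) := by push_cast; rfl
        rw [h7, Complex.norm_real, Real.norm_eq_abs]
        exact h6
      refine (sum_le_sum h5).trans ?_
      rw [sum_const, card_range, nsmul_eq_mul]
    calc _ ≤ 1 * ‖∑ n ∈ S, Phi χ (m * u n)‖ := mul_le_mul_of_nonneg_right h3 (norm_nonneg _)
      _ = ‖∑ n ∈ S, Phi χ (m * u n)‖ := one_mul _
      _ ≤ _ := h4
  refine (sum_le_sum h1).trans ?_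
  rw [sum_const, Nat.card_Icc, Nat.add_sub_cancel, nsmul_eq_mul]

lemma LL_sum (hq : 2 ≤ q) (w : ℝ) (hw : 0 < w) : ∃ M : ℕ, 1 ≤ M ∧ ∃ δ : ℝ, 0 < δ ∧
    ∀ {ι : Type} (S : Finset ι) (u : ι → ℝ),
      (∀ m, 1 ≤ m → m ≤ M → ∀ a < q,
        |(vis S (fun n => m * u n) ((a : ℝ) / q) (((a : ℝ) + 1) / q) : ℝ) - S.card / q| ≤
          δ * S.card) →
      ‖∑ n ∈ S, LL χ (u n)‖ ≤ w * S.card := by
  obtain ⟨M0, h0, h⟩ := unif_conv χ (by omega)
  have hlog : Tendsto (fun M : ℕ => AA χ ^ 2 * (3 / Real.log M)) atTop (𝓝 0) := by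
    have h1 : Tendsto (fun M : ℕ => Real.log M) atTop atTop :=
      Real.tendsto_log_atTop.comp tendsto_natCast_atTop_atTop
    have h2 := (h1.inv_tendsto_atTop).const_mul (AA χ ^ 2 * 3)
    rw [mul_zero] at h2
    refine h2.congr fun M => ?_
    simp only [Pi.inv_apply]
    ring
  obtain ⟨M, hM1, hM2⟩ := ((hlog.eventually (gt_mem_nhds (show (0 : ℝ) < w / 2 by positivity))).and
    (eventually_ge_atTop M0)).exists
  have hA := AA_nonneg χ
  set C : ℝ := M * (q * (AA χ + 1)) with hC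
  have hM0 : (0 : ℝ) < M := by exact_mod_cast (by omega : 0 < M)
  have hq0 : (0 : ℝ) < q := by exact_mod_cast (by omega : 0 < q)
  have hC0 : 0 < C := by positivity
  refine ⟨M, by omega, w / 2 / C, by positivity, fun S u hS => ?_⟩
  have h1 := SS_sum χ hq S u M (w / 2 / C) hS
  have h2 : M * (q * (AA χ * (w / 2 / C * S.card))) ≤ w / 2 * S.card := by
    have h3 : M * (q * (AA χ * (w / 2 / C * S.card))) = (M * (q * AA χ)) / C * (w / 2 * S.card) := by
      ring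
    rw [h3]
    have h4 : (M * (q * AA χ)) / C ≤ 1 := by
      rw [div_le_one hC0, hC]
      apply mul_le_mul_of_nonneg_left _ hM0.le
      apply mul_le_mul_of_nonneg_left _ hq0.le
      linarith
    have h5 : 0 ≤ w / 2 * (S.card : ℝ) := by positivity
    nlinarith
  have h3 : ‖∑ n ∈ S, (LL χ (u n) - SS χ M (u n))‖ ≤ w / 2 * S.card := by
    refine (norm_sum_le _ _).trans ?_
    have h4 : ∀ n ∈ S, ‖LL χ (u n) - SS χ M (u n)‖ ≤ w / 2 := fun n _ =>
      ((h M hM2).2 (u n)).trans hM1.le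
    refine (sum_le_sum h4).trans ?_
    rw [sum_const, nsmul_eq_mul]
    exact le_of_eq (by ring)
  rw [sum_sub_distrib] at h3
  have h4 : ∑ n ∈ S, LL χ (u n) = (∑ n ∈ S, LL χ (u n) - ∑ n ∈ S, SS χ M (u n)) +
      ∑ n ∈ S, SS χ M (u n) := by ring
  rw [h4]
  refine (norm_add_le _ _).trans ?_
  linarith

end

end Pool.Agent.N915.ML
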