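import Pool.Agent.N915.ML.Crit

/-! # The finite criterion -/

set_option autoImplicit false

namespace Pool.Agent.N915.ML

open Finset Filter Topology
open Pool.Agent.H807R2.Dav (ee norm_ee ee_add ee_zero ee_int ee_add_int ee_pow ee_eq)

lemma exists_odd (q : ℕ) (hq : 3 ≤ q) : ∃ χ : DirichletCharacter ℂ q, χ (-1) = -1 := by
  have : NeZero q := ⟨by omega⟩
  have h1 : (-1 : ZMod q) ≠ 1 := by
    intro h
    have h2 : ((2 : ℕ) : ZMod q) = 0 := by
      have : (2 : ZMod q) = 1 - (-1) := by ring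
      push_cast
      rw [this, h, sub_self]
    rw [ZMod.natCast_eq_zero_iff] at h2
    have := Nat.le_of_dvd (by norm_num) h2
    omega
  obtain ⟨χ, hχ⟩ := DirichletCharacter.exists_apply_ne_one_of_hasEnoughRootsOfUnity ℂ h1
  refine ⟨χ, ?_⟩
  rcases χ.even_or_odd with h | h
  · exact absurd h hχ
  · exact h

/-- Weyl sums from the images of the `q` intervals -/
lemma weyl (q : ℕ) (hq : 3 ≤ q) (w : ℝ) (hw : 0 < w) : ∃ M : ℕ, 1 ≤ M ∧ ∃ δ : ℝ, 0 < δ ∧
    ∀ {ι : Type} (S : Finset ι) (u : ι → ℝ),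
      (∀ m, 1 ≤ m → m ≤ M → ∀ a < q,
        |(vis S (fun n => m * u n) ((a : ℝ) / q) (((a : ℝ) + 1) / q) : ℝ) - S.card / q| ≤
          δ * S.card) →
      ‖∑ n ∈ S, ee (u n)‖ ≤ w * S.card := by
  obtain ⟨χ, hχ⟩ := exists_odd q hq
  obtain ⟨M1, h1, δ1, hδ1, H1⟩ := LL_sum (1 : DirichletCharacter ℂ q) (by omega) (w / 8)
    (by positivity)
  obtain ⟨M2, h2, δ2, hδ2, H2⟩ := LL_sum χ (by omega) (w / 8) (by positivity)
  refine ⟨max M1 M2, h1.trans (le_max_left _ _), min δ1 δ2, lt_min hδ1 hδ2, fun S u hS => ?_⟩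
  have g1 := H1 S u fun m hm hm2 a ha => (hS m hm (hm2.trans (le_max_left _ _)) a ha).trans
    (mul_le_mul_of_nonneg_right (min_le_left _ _) (Nat.cast_nonneg _))
  have g2 := H2 S u fun m hm hm2 a ha => (hS m hm (hm2.trans (le_max_right _ _)) a ha).trans
    (mul_le_mul_of_nonneg_right (min_le_right _ _) (Nat.cast_nonneg _))
  have hone : (1 : DirichletCharacter ℂ q) (-1) = 1 :=
    MulChar.one_apply (IsUnit.neg isUnit_one)
  have e : ∑ n ∈ S, ee (u n) = (Real.pi / Complex.I) *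
      (∑ n ∈ S, LL (1 : DirichletCharacter ℂ q) (u n) + ∑ n ∈ S, LL χ (u n)) := by
    rw [← sum_add_distrib, mul_sum]
    refine sum_congr rfl fun n _ => ?_
    unfold LL
    rw [hone, hχ]
    have hpi : (Real.pi : ℂ) ≠ 0 := by exact_mod_cast Real.pi_pos.ne'
    have hI : Complex.I ≠ 0 := Complex.I_ne_zero
    field_simp
    ring
  rw [e, norm_mul]
  have h3 : ‖(Real.pi / Complex.I : ℂ)‖ ≤ 4 := by
    rw [norm_div, Complex.norm_I, div_one, Complex.norm_real, Real.norm_of_nonneg Real.pi_pos.le]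
    linarith [Real.pi_lt_four]
  have h4 := norm_add_le (∑ n ∈ S, LL (1 : DirichletCharacter ℂ q) (u n)) (∑ n ∈ S, LL χ (u n))
  calc _ ≤ 4 * (w / 4 * S.card) := by
        apply mul_le_mul h3 _ (norm_nonneg _) (by norm_num)
        linarith
    _ = _ := by ring

open Pool.Agent.H469R2.NK (e norm_e e_add e_zero conj_e) in
open Pool.Agent.R485.Trans (saw_bound indicator_eq) in
/-- discrepancy and exponential sums -/
lemma disc_gen {ι : Type} (S : Finset ι) (u : ι → ℝ) (K : ℕ) (hK : 1 ≤ K) (T : ℝ)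
    (hT : ∀ h : ℕ, 1 ≤ h → h ≤ K → ‖∑ n ∈ S, ee (h * u n)‖ ≤ T) (α β : ℝ)
    (h0 : 0 ≤ α) (h1 : α < β) (h2 : β ≤ 1) :
    |(vis S u α β : ℝ) - (β - α) * S.card| ≤ 2 * (K * T + 2 * S.card / √K) := by
  classical
  have hKR : (1 : ℝ) ≤ K := by exact_mod_cast hK
  have hK0 : (0 : ℝ) < K := by linarith
  have hT0 : 0 ≤ T := (norm_nonneg _).trans (hT 1 le_rfl hK)
  have hsq : (1 : ℝ) ≤ √K := by
    rw [show (1 : ℝ) = √1 by simp]
    exact Real.sqrt_le_sqrt hKR
  have hsq2 : √(K : ℝ) * √K = K := Real.mul_self_sqrt hK0.le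
  have hee : ∀ t : ℝ, e t = ee t := by
    intro t
    unfold e ee
    congr 1
    push_cast
    ring
  have key : ∀ γ : ℝ, |∑ i ∈ S, (Int.fract (u i - γ) - 1 / 2)| ≤
      K * T + 2 * S.card / √K := by
    intro γ
    have h3 := saw_bound S (fun i => u i - γ) K hK (1 / √K) (by positivity)
      (by rw [div_le_one (by positivity)]; exact hsq)
    refine h3.trans ?_
    have h4 : ∀ h ∈ Icc 1 K, ‖∑ i ∈ S, e (h * (u i - γ))‖ / h ≤ T := by
      intro h hh
      rw [mem_Icc] at hh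
      have h5 : ∑ i ∈ S, e (h * (u i - γ)) = e (-(h * γ)) * ∑ i ∈ S, ee (h * u i) := by
        rw [mul_sum]
        refine sum_congr rfl fun i _ => ?_
        rw [← hee, ← e_add]
        congr 1
        ring
      rw [h5, norm_mul, norm_e, one_mul]
      have h6 : (1 : ℝ) ≤ h := by exact_mod_cast hh.1
      rw [div_le_iff₀ (by linarith)]
      have h7 := hT h hh.1 hh.2
      nlinarith
    have h6 : ∑ h ∈ Icc 1 K, ‖∑ i ∈ S, e (h * (u i - γ))‖ / h ≤ K * T := by
      refine (sum_le_sum h4).trans (le_of_eq ?_)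
      rw [sum_const, Nat.card_Icc, Nat.add_sub_cancel, nsmul_eq_mul]
    have h7 : (S.card : ℝ) / (K * (1 / √K)) + S.card * (1 / √K) = 2 * S.card / √K := by
      have h8 : (K : ℝ) * (1 / √K) = √K := by
        rw [mul_one_div, div_eq_iff (by positivity)]
        exact hsq2.symm
      rw [h8]
      ring
    linarith
  have h3 : (vis S u α β : ℝ) - (β - α) * S.card =
      ∑ i ∈ S, (Int.fract (u i - β) - 1 / 2) - ∑ i ∈ S, (Int.fract (u i - α) - 1 / 2) := by
    rw [← sum_sub_distrib]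
    have h4 : ∀ i ∈ S, (Int.fract (u i - β) - 1 / 2) - (Int.fract (u i - α) - 1 / 2) =
        (if α ≤ Int.fract (u i) ∧ Int.fract (u i) < β then (1 : ℝ) else 0) - (β - α) := by
      intro i _
      rw [indicator_eq (u i) α β h0 h1 h2]
    rw [sum_congr rfl h4, sum_sub_distrib, sum_const, nsmul_eq_mul]
    unfold vis
    rw [card_filter]
    push_cast
    ring
  rw [h3]
  have h4 := key β
  have h5 := key α
  rw [abs_le] at h4 h5 ⊢
  constructor <;> linarith

/-- **the finite criterion** -/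
theorem crit (q : ℕ) (hq : 3 ≤ q) (ε : ℝ) (hε : 0 < ε) : ∃ Q : ℕ, 1 ≤ Q ∧ ∃ δ : ℝ, 0 < δ ∧
    ∀ {ι : Type} (S : Finset ι) (u : ι → ℝ),
      (∀ m, 1 ≤ m → m ≤ Q → ∀ a < q,
        |(vis S (fun n => m * u n) ((a : ℝ) / q) (((a : ℝ) + 1) / q) : ℝ) - S.card / q| ≤
          δ * S.card) →
      ∀ s t : ℝ, 0 ≤ s → s < t → t ≤ 1 → |(vis S u s t : ℝ) - (t - s) * S.card| ≤ ε * S.card := by
  obtain ⟨K, hK⟩ := exists_nat_gt (max 1 (64 / ε ^ 2))
  have hK1 : (1 : ℝ) < K := lt_of_le_of_lt (le_max_left _ _) hK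
  have hK2 : 64 / ε ^ 2 < K := lt_of_le_of_lt (le_max_right _ _) hK
  have hK0 : (0 : ℝ) < K := by linarith
  have hK1' : 1 ≤ K := by exact_mod_cast hK1.le
  set w : ℝ := ε / (4 * K) with hw
  obtain ⟨M, hM, δ, hδ, H⟩ := weyl q hq w (by positivity)
  refine ⟨K * M, Nat.mul_pos (by omega) (by omega), δ, hδ, fun S u hS s t h0 h1 h2 => ?_⟩
  have hT : ∀ h : ℕ, 1 ≤ h → h ≤ K → ‖∑ n ∈ S, ee (h * u n)‖ ≤ w * S.card := by
    intro h hh hhK
    refine H S (fun n => h * u n) fun m hm hmM a ha => ?_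
    have h3 := hS (h * m) (Nat.mul_pos (by omega) (by omega)) (Nat.mul_le_mul hhK hmM) a ha
    have h4 : (fun n => ((h * m : ℕ) : ℝ) * u n) = fun n => (m : ℝ) * ((h : ℝ) * u n) := by
      funext n
      push_cast
      ring
    rw [h4] at h3
    exact h3
  refine (disc_gen S u K hK1' _ hT s t h0 h1 h2).trans ?_
  have h3 : 2 * (K * (w * (S.card : ℝ))) = ε / 2 * S.card := by
    rw [hw]
    field_simp
    norm_num
  have h4 : 2 * (2 * (S.card : ℝ) / √K) ≤ ε / 2 * S.card := by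
    have h7 : 8 / ε ≤ √(K : ℝ) := by
      apply Real.le_sqrt_of_sq_le
      have : (8 / ε) ^ 2 = 64 / ε ^ 2 := by ring
      rw [this]
      exact hK2.le
    have hsK : 0 < √(K : ℝ) := Real.sqrt_pos.2 hK0
    have h8 : 2 * (2 * (S.card : ℝ) / √K) = 4 * S.card / √K := by ring
    rw [h8, div_le_iff₀ hsK]
    rw [div_le_iff₀ hε] at h7
    have h9 : (0 : ℝ) ≤ S.card := Nat.cast_nonneg _
    nlinarith
  linarith

end Pool.Agent.N915.ML
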