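import Pool.Agent.N915.ML.Major

/-! # Davenport's estimate with the sawtooth function: the final bound -/

set_option autoImplicit false

namespace Pool.Agent.N915.ML

open Finset Filter Topology
open Pool.Agent.H807R2.Dav (ee norm_ee ee_add ee_zero ee_int ee_add_int ee_pow ee_eq)
open Pool.Agent.H373R2.T7 (muR muR_abs sup_mu ev_log' ev_L')

lemma unif (U : ℕ) : ∃ N0 : ℕ, ∀ N : ℕ, N0 ≤ N → ∀ u ≤ N, ∀ α : ℝ,
    ‖∑ n ∈ Icc 1 u, ((muR n : ℝ) : ℂ) * ee ((n : ℝ) * α)‖ ≤ 2 ^ U * (N / Real.log N ^ U) := by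
  obtain ⟨n0, h0⟩ := sup_mu U
  obtain ⟨n1, h1⟩ := ev_log' U 1
  obtain ⟨n2, h2⟩ := ev_L' 2
  refine ⟨max (max n1 n2) (max (n0 * n0) 4), fun N hN u hu α => ?_⟩
  have g1 := h1 N (le_trans (le_trans (le_max_left _ _) (le_max_left _ _)) hN)
  have g2 := h2 N (le_trans (le_trans (le_max_right _ _) (le_max_left _ _)) hN)
  have g3 : n0 * n0 ≤ N := le_trans (le_trans (le_max_left _ _) (le_max_right _ _)) hN
  have g4 : 4 ≤ N := le_trans (le_trans (le_max_right _ _) (le_max_right _ _)) hN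
  have hN0 : (0 : ℝ) < N := by exact_mod_cast (by omega : 0 < N)
  have hsq : √(N : ℝ) * √N = N := Real.mul_self_sqrt hN0.le
  have hL0 : 0 < Real.log N := by linarith
  have hLU : 0 < Real.log N ^ U := by positivity
  have htriv : ‖∑ n ∈ Icc 1 u, ((muR n : ℝ) : ℂ) * ee ((n : ℝ) * α)‖ ≤ u := by
    refine (norm_sum_le _ _).trans ?_
    have : ∀ n ∈ Icc 1 u, ‖((muR n : ℝ) : ℂ) * ee ((n : ℝ) * α)‖ ≤ 1 := by
      intro n _
      rw [norm_mul, norm_ee, mul_one, Complex.norm_real, Real.norm_eq_abs]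
      exact muR_abs n
    refine (sum_le_sum this).trans ?_
    simp
  rcases le_or_gt (u : ℝ) (√N) with h | h
  · refine htriv.trans (h.trans ?_)
    rw [mul_div_assoc', le_div_iff₀ hLU]
    have h5 : √(N : ℝ) * Real.log N ^ U ≤ √N * √N := by
      apply mul_le_mul_of_nonneg_left _ (Real.sqrt_nonneg _)
      linarith
    have h6 : (1 : ℝ) ≤ 2 ^ U := one_le_pow₀ (by norm_num)
    nlinarith
  · have hun : n0 ≤ u := by
      have h5 : (n0 : ℝ) ≤ √N := by
        apply Real.le_sqrt_of_sq_le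
        have : ((n0 * n0 : ℕ) : ℝ) ≤ N := by exact_mod_cast g3
        push_cast at this
        nlinarith
      exact_mod_cast (h5.trans h.le)
    refine (h0 u hun α).trans ?_
    have hu0 : (0 : ℝ) < u := lt_of_le_of_lt (Real.sqrt_nonneg _) h
    have huN : (u : ℝ) ≤ N := by exact_mod_cast hu
    have h5 : Real.log N / 2 ≤ Real.log u := by
      rw [← Real.log_sqrt hN0.le]
      exact Real.log_le_log (Real.sqrt_pos.2 hN0) h.le
    have h6 : (Real.log N / 2) ^ U ≤ Real.log u ^ U := pow_le_pow_left₀ (by positivity) h5 _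
    calc (u : ℝ) / Real.log u ^ U ≤ N / (Real.log N / 2) ^ U := by
          apply div_le_div₀ hN0.le huN (by positivity) h6
      _ = _ := by rw [div_pow]; field_simp

theorem davenport_psi : ∃ N0 : ℕ, ∀ N : ℕ, N0 ≤ N → ∀ α β y : ℝ,
    ‖∑ m ∈ Icc 1 N, (((muR m : ℝ) : ℂ) * ee ((m : ℝ) * α)) * (psi (m * y + β) : ℂ)‖ ≤
      N / Real.log N ^ 2 := by
  obtain ⟨n0, h0⟩ := unif 7
  obtain ⟨n1, h1⟩ := ev_log' 4 1
  obtain ⟨n2, h2⟩ := ev_L' 1000
  refine ⟨max (max n1 n2) (max n0 4), fun N hN α β y => ?_⟩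
  have g1 := h1 N (le_trans (le_trans (le_max_left _ _) (le_max_left _ _)) hN)
  have g2 := h2 N (le_trans (le_trans (le_max_right _ _) (le_max_left _ _)) hN)
  have g3 : n0 ≤ N := le_trans (le_trans (le_max_left _ _) (le_max_right _ _)) hN
  have g4 : 4 ≤ N := le_trans (le_trans (le_max_right _ _) (le_max_right _ _)) hN
  have hN0 : (4 : ℝ) ≤ N := by exact_mod_cast g4
  set L := Real.log N with hL
  have hL0 : 0 < L := by linarith
  have hsq : √(N : ℝ) * √N = N := Real.mul_self_sqrt (by linarith)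
  have hsq1 : 1 ≤ √(N : ℝ) := Real.le_sqrt_of_sq_le (by norm_num; linarith)
  rw [one_mul] at g1
  have hNL : L ^ 4 ≤ N := by nlinarith
  set D : ℝ := 2 ^ 7 * (N / L ^ 7) with hD
  have hDs := h0 N g3
  set n : ℕ := ⌊(N : ℝ) / L ^ 4⌋₊ with hn
  have hn1 : 1 ≤ n := by
    rw [hn, Nat.one_le_floor_iff, le_div_iff₀ (by positivity)]
    linarith
  obtain ⟨r, hr1, hr2⟩ := Real.exists_rat_abs_sub_le_and_den_le y (n := n) (by omega)
  set q := r.den with hq
  have hq1 : 1 ≤ q := r.pos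
  have hq0 : (1 : ℝ) ≤ q := by exact_mod_cast hq1
  have hnN : (n : ℝ) ≤ N / L ^ 4 := Nat.floor_le (by positivity)
  have hL1 : (1 : ℝ) ≤ L ^ 4 := one_le_pow₀ (by linarith)
  have hnN2 : (n : ℝ) ≤ N := hnN.trans (by
    rw [div_le_iff₀ (by positivity)]
    nlinarith)
  have hqn : (q : ℝ) ≤ n := by exact_mod_cast hr2
  have hqN : q ≤ N := by exact_mod_cast hqn.trans hnN2
  have hra : (r : ℝ) = (r.num : ℝ) / q := by
    rw [hq]
    exact_mod_cast (Rat.num_div_den r).symm
  rw [hra] at hr1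
  have hn2 : (N : ℝ) / L ^ 4 < n + 1 := Nat.lt_floor_add_one _
  have hcop : IsCoprime r.num (q : ℤ) := by
    rw [Int.isCoprime_iff_gcd_eq_one]
    exact r.reduced
  have hy1 : |y - r.num / q| ≤ 1 / (q : ℝ) ^ 2 := by
    refine hr1.trans ?_
    apply one_div_le_one_div_of_le (by positivity)
    rw [sq]
    apply mul_le_mul_of_nonneg_right _ (by linarith)
    linarith
  rcases le_or_gt (L ^ 3) q with hq3 | hq3
  · -- minor arc
    have h5 := minor (Icc 1 N) (fun m => ((muR m : ℝ) : ℂ) * ee ((m : ℝ) * α)) (fun m _ => by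
      rw [norm_mul, norm_ee, mul_one, Complex.norm_real, Real.norm_eq_abs]
      exact muR_abs m) (fun m : ℕ => m * y + β) (N ^ 2) (Nat.one_le_iff_ne_zero.2 (by
        have : 0 < N := by omega
        positivity)) D (fun k => by
      have e : ∑ m ∈ Icc 1 N, ((muR m : ℝ) : ℂ) * ee ((m : ℝ) * α) * ee (k * (m * y + β)) =
          ee (k * β) * ∑ m ∈ Icc 1 N, ((muR m : ℝ) : ℂ) * ee ((m : ℝ) * (α + k * y)) := by
        rw [mul_sum]
        refine sum_congr rfl fun m _ => ?_
        have : ee ((m : ℝ) * α) * ee (k * (m * y + β)) =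
            ee (k * β) * ee ((m : ℝ) * (α + k * y)) := by
          rw [← ee_add, ← ee_add]
          congr 1
          ring
        linear_combination ((muR m : ℝ) : ℂ) * this
      rw [e, norm_mul, norm_ee, one_mul]
      exact hDs N le_rfl _)
    refine h5.trans ?_
    have h6 := sum_err q hq1 r.num hcop y β N hqN hy1
    have h7 : Real.log ((N ^ 2 : ℕ) : ℝ) = 2 * L := by
      push_cast
      rw [Real.log_pow]
      push_cast
      ring
    rw [h7]
    have h8 : (N : ℝ) / q ≤ N / L ^ 3 := by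
      apply div_le_div_of_nonneg_left (by linarith) (by positivity) hq3
    have h9 : (1 : ℝ) ≤ N / L ^ 3 := by
      rw [le_div_iff₀ (by positivity)]
      have : L ^ 3 ≤ L ^ 4 := pow_le_pow_right₀ (by linarith) (by norm_num)
      linarith
    have h10 : D * (1 + 2 * L) ≤ 384 * (N / L ^ 3) := by
      have e1 : D * (1 + 2 * L) ≤ D * (3 * L) := by
        apply mul_le_mul_of_nonneg_left _ (by positivity)
        linarith
      refine e1.trans ?_
      have e2 : D * (3 * L) = 384 * (N / L ^ 3) * (1 / L ^ 3) := by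
        rw [hD]
        field_simp
        norm_num
      rw [e2]
      have e3 : 1 / L ^ 3 ≤ 1 := by
        rw [div_le_one (by positivity)]
        exact one_le_pow₀ (by linarith)
      have e4 : 0 ≤ 384 * (N / L ^ 3) := by positivity
      nlinarith
    have h11 : 1000 * (N / L ^ 3) ≤ N / L ^ 2 := by
      rw [mul_div_assoc', div_le_div_iff₀ (by positivity) (by positivity)]
      have : 1000 * (N : ℝ) * L ^ 2 ≤ L * N * L ^ 2 := by
        apply mul_le_mul_of_nonneg_right _ (by positivity)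
        apply mul_le_mul_of_nonneg_right g2 (by linarith)
      nlinarith
    linarith
  · -- major arc
    have h5 := major q hq1 r.num y α β N D (fun u hu => hDs u hu)
    refine h5.trans ?_
    have h6 : 2 * N * |y - r.num / q| ≤ 2 * L ^ 4 / q := by
      have h7 : |y - r.num / q| ≤ L ^ 4 / (N * q) := by
        refine hr1.trans ?_
        rw [div_le_div_iff₀ (by positivity) (by positivity)]
        rw [div_lt_iff₀ (by positivity)] at hn2
        have : (N : ℝ) * q ≤ (n + 1) * L ^ 4 * q := mul_le_mul_of_nonneg_right hn2.le (by linarith)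
        linarith
      calc 2 * N * |y - r.num / q| ≤ 2 * N * (L ^ 4 / (N * q)) :=
            mul_le_mul_of_nonneg_left h7 (by positivity)
        _ = _ := by field_simp
    have h7 : (q : ℝ) * D * (2 * N * |y - r.num / q| + 3 / 2) ≤ D * (2 * L ^ 4 + 3 / 2 * L ^ 3) := by
      have h8 : (q : ℝ) * D * (2 * N * |y - r.num / q| + 3 / 2) ≤
          q * D * (2 * L ^ 4 / q + 3 / 2) := by
        apply mul_le_mul_of_nonneg_left _ (by positivity)
        linarith
      refine h8.trans ?_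
      have h9 : (q : ℝ) * D * (2 * L ^ 4 / q + 3 / 2) = D * (2 * L ^ 4 + 3 / 2 * q) := by
        field_simp
      rw [h9]
      apply mul_le_mul_of_nonneg_left _ (by positivity)
      linarith
    refine h7.trans ?_
    have h8 : D * (2 * L ^ 4 + 3 / 2 * L ^ 3) ≤ D * (4 * L ^ 4) := by
      apply mul_le_mul_of_nonneg_left _ (by positivity)
      have : L ^ 3 ≤ L ^ 4 := pow_le_pow_right₀ (by linarith) (by norm_num)
      linarith
    refine h8.trans ?_
    have h9 : D * (4 * L ^ 4) = 512 * (N / L ^ 3) := by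
      rw [hD]
      field_simp
      norm_num
    rw [h9]
    rw [mul_div_assoc', div_le_div_iff₀ (by positivity) (by positivity)]
    have : 512 * (N : ℝ) * L ^ 2 ≤ L * N * L ^ 2 := by
      apply mul_le_mul_of_nonneg_right _ (by positivity)
      apply mul_le_mul_of_nonneg_right (by linarith) (by linarith)
    nlinarith

/-- summation by parts over a tail -/
lemma tail_abel (s : ℕ → ℂ) (M : ℕ) (hM : 2 ≤ M) (hM1 : 1 ≤ Real.log M)
    (hs : ∀ m, M ≤ m → ‖∑ i ∈ Icc 1 m, s i‖ ≤ m / Real.log m ^ 2) (M' : ℕ) (hM' : M ≤ M') :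
    ‖∑ m ∈ Ioc M M', (1 / (m : ℂ)) * s m‖ ≤ 3 / Real.log M := by
  set S : ℕ → ℂ := fun m => ∑ i ∈ Icc 1 m, s i with hS
  have e : ∀ m', M ≤ m' → ∑ m ∈ Ioc M m', (1 / (m : ℂ)) * s m =
      (1 / ((m' + 1 : ℕ) : ℂ)) * S m' - (1 / ((M + 1 : ℕ) : ℂ)) * S M +
        ∑ m ∈ Ioc M m', (1 / (m : ℂ) - 1 / ((m + 1 : ℕ) : ℂ)) * S m := by
    intro m' hm'
    induction m', hm' using Nat.le_induction with
    | base => simp
    | succ m' hm' ih =>
      rw [← insert_Ioc_right_eq_Ioc_add_one hm', sum_insert (by simp), sum_insert (by simp), ih]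
      have h1 : S (m' + 1) = S m' + s (m' + 1) := by
        simp only [hS]
        rw [sum_Icc_succ_top (by omega)]
      rw [h1]
      ring
  rw [e M' hM']
  have hlog : ∀ m : ℕ, M ≤ m → 0 < Real.log m := fun m hm =>
    Real.log_pos (by exact_mod_cast (by omega : 1 < m))
  have hM0 : (2 : ℝ) ≤ M := by exact_mod_cast hM
  have hlog2 : ∀ m : ℕ, M ≤ m → Real.log M ≤ Real.log m := fun m hm =>
    Real.log_le_log (by linarith) (by exact_mod_cast hm)
  have hterm : ∀ m : ℕ, M ≤ m → ‖(1 / ((m + 1 : ℕ) : ℂ)) * S m‖ ≤ 1 / Real.log m ^ 2 := by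
    intro m hm
    have hm0 : (0 : ℝ) < m := by exact_mod_cast (by omega : 0 < m)
    rw [norm_mul, norm_div, norm_one, Complex.norm_natCast]
    push_cast
    calc 1 / ((m : ℝ) + 1) * ‖S m‖ ≤ 1 / m * (m / Real.log m ^ 2) := by
          apply mul_le_mul _ (hs m hm) (norm_nonneg _) (by positivity)
          apply one_div_le_one_div_of_le hm0
          linarith
      _ = _ := by field_simp
  have hsum : ∀ m', M ≤ m' → ‖∑ m ∈ Ioc M m', (1 / (m : ℂ) - 1 / ((m + 1 : ℕ) : ℂ)) * S m‖ ≤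
      1 / Real.log M - 1 / Real.log m' := by
    intro m' hm'
    induction m', hm' using Nat.le_induction with
    | base => simp
    | succ m' hm' ih =>
      rw [← insert_Ioc_right_eq_Ioc_add_one hm', sum_insert (by simp)]
      refine (norm_add_le _ _).trans ?_
      have hm0 : (0 : ℝ) < m' := by exact_mod_cast (by omega : 0 < m')
      have l1 := hlog m' hm'
      have l2 := hlog (m' + 1) (by omega)
      have l3 : Real.log m' ≤ Real.log ((m' + 1 : ℕ) : ℝ) :=
        Real.log_le_log hm0 (by push_cast; linarith)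
      have h1 : ‖(1 / ((m' + 1 : ℕ) : ℂ) - 1 / ((m' + 1 + 1 : ℕ) : ℂ)) * S (m' + 1)‖ ≤
          1 / ((m' + 1 : ℕ) : ℝ) * (1 / Real.log ((m' + 1 : ℕ) : ℝ) ^ 2) := by
        have e1 : (1 / ((m' + 1 : ℕ) : ℂ) - 1 / ((m' + 1 + 1 : ℕ) : ℂ)) * S (m' + 1) =
            (1 / ((m' + 1 : ℕ) : ℂ)) * ((1 / ((m' + 1 + 1 : ℕ) : ℂ)) * S (m' + 1)) := by
          have g1 : ((m' : ℂ) + 1) ≠ 0 := by exact_mod_cast Nat.succ_ne_zero m'
          have g2 : ((m' : ℂ) + 1 + 1) ≠ 0 := by exact_mod_cast Nat.succ_ne_zero (m' + 1)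
          push_cast
          field_simp
          ring
        rw [e1, norm_mul, norm_div, norm_one, Complex.norm_natCast]
        exact mul_le_mul_of_nonneg_left (hterm (m' + 1) (by omega)) (by positivity)
      have h2 : 1 / ((m' + 1 : ℕ) : ℝ) * (1 / Real.log ((m' + 1 : ℕ) : ℝ) ^ 2) ≤
          1 / Real.log m' - 1 / Real.log ((m' + 1 : ℕ) : ℝ) := by
        have h3 : 1 / ((m' + 1 : ℕ) : ℝ) ≤ Real.log ((m' + 1 : ℕ) : ℝ) - Real.log m' := by
          have h4 := Real.one_sub_inv_le_log_of_pos (x := ((m' : ℝ) + 1) / m') (by positivity)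
          rw [Real.log_div (by positivity) (by positivity)] at h4
          have h5 : 1 - (((m' : ℝ) + 1) / m')⁻¹ = 1 / ((m' + 1 : ℕ) : ℝ) := by
            push_cast
            field_simp
            ring
          rw [h5] at h4
          push_cast at h4 ⊢
          exact h4
        set a := Real.log m' with ha
        set b := Real.log ((m' + 1 : ℕ) : ℝ) with hb
        have h6 : 1 / a - 1 / b = (b - a) / (a * b) := by
          field_simp
        rw [h6, le_div_iff₀ (by positivity)]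
        have h7 : 1 / b ^ 2 * (a * b) ≤ 1 := by
          have : 1 / b ^ 2 * (a * b) = a / b := by field_simp
          rw [this, div_le_one l2]
          exact l3
        calc 1 / ((m' + 1 : ℕ) : ℝ) * (1 / b ^ 2) * (a * b) =
              1 / ((m' + 1 : ℕ) : ℝ) * (1 / b ^ 2 * (a * b)) := by ring
          _ ≤ 1 / ((m' + 1 : ℕ) : ℝ) * 1 := mul_le_mul_of_nonneg_left h7 (by positivity)
          _ ≤ _ := by rw [mul_one]; exact h3
      linarith
  have h1 := hterm M' hM'
  have h2 := hterm M le_rfl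
  have h3 := hsum M' hM'
  have h4 := norm_add_le ((1 / ((M' + 1 : ℕ) : ℂ)) * S M' - (1 / ((M + 1 : ℕ) : ℂ)) * S M)
    (∑ m ∈ Ioc M M', (1 / (m : ℂ) - 1 / ((m + 1 : ℕ) : ℂ)) * S m)
  have h5 := norm_sub_le ((1 / ((M' + 1 : ℕ) : ℂ)) * S M') ((1 / ((M + 1 : ℕ) : ℂ)) * S M)
  have l1 := hlog M le_rfl
  have l2 := hlog M' hM'
  have l3 := hlog2 M' hM'
  have h6 : 1 / Real.log M ^ 2 ≤ 1 / Real.log M := by
    apply one_div_le_one_div_of_le l1
    nlinarith
  have h7 : 1 / Real.log M' ^ 2 ≤ 1 / Real.log M := by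
    apply one_div_le_one_div_of_le l1
    nlinarith
  have h8 : 0 ≤ 1 / Real.log M' := by positivity
  have h9 : 3 / Real.log M = 1 / Real.log M + 1 / Real.log M + 1 / Real.log M := by ring
  linarith

/-- the uniform tail bound -/
theorem tail_psi : ∃ M0 : ℕ, 2 ≤ M0 ∧ ∀ M : ℕ, M0 ≤ M → 1 ≤ Real.log M ∧ ∀ M' : ℕ, M ≤ M' →
    ∀ α β y : ℝ, ‖∑ m ∈ Ioc M M', (1 / (m : ℂ)) *
      ((((muR m : ℝ) : ℂ) * ee ((m : ℝ) * α)) * (psi (m * y + β) : ℂ))‖ ≤ 3 / Real.log M := by
  obtain ⟨n0, h0⟩ := davenport_psi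
  obtain ⟨n1, h1⟩ := ev_L' 1
  refine ⟨max (max n0 n1) 2, le_max_right _ _, fun M hM => ?_⟩
  have g0 : n0 ≤ M := le_trans (le_trans (le_max_left _ _) (le_max_left _ _)) hM
  have g1 : n1 ≤ M := le_trans (le_trans (le_max_right _ _) (le_max_left _ _)) hM
  refine ⟨h1 M g1, fun M' hM' α β y => ?_⟩
  exact tail_abel (fun m => (((muR m : ℝ) : ℂ) * ee ((m : ℝ) * α)) * (psi (m * y + β) : ℂ)) M
    (le_trans (le_max_right _ _) hM) (h1 M g1) (fun m hm => h0 m (g0.trans hm) α β y) M' hM'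

end Pool.Agent.N915.ML
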