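import Pool.Agent.N915.ML.Four

/-! # The inversion formula for characters: uniform convergence -/

set_option autoImplicit false

namespace Pool.Agent.N915.ML

open Finset Filter Topology
open Pool.Agent.H807R2.Dav (ee norm_ee ee_add ee_zero ee_int ee_add_int ee_pow ee_eq)
open Pool.Agent.H373R2.T7 (muR muR_abs sup_mu ev_log' ev_L')
open Pool.Agent.W565.MOFS (P2 cos_sum)

lemma deriv_P2 (t : ℝ) :
    HasDerivWithinAt (fun s : ℝ => P2 (Int.fract s) / 2) (psi t) (Set.Ici t) t := by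
  have h1 : HasDerivWithinAt (fun s : ℝ => ((s - ⌊t⌋) ^ 2 - (s - ⌊t⌋) + 1 / 6) / 2) (psi t)
      (Set.Ici t) t := by
    have h2 : HasDerivAt (fun s : ℝ => ((s - ⌊t⌋) ^ 2 - (s - ⌊t⌋) + 1 / 6) / 2)
        ((2 * (t - ⌊t⌋) - 1) / 2) t := by
      have h3 : HasDerivAt (fun s : ℝ => s - (⌊t⌋ : ℝ)) 1 t := (hasDerivAt_id t).sub_const _
      have h4 := (((h3.fun_pow 2).fun_sub h3).add_const (1 / 6 : ℝ)).div_const 2
      refine h4.congr_deriv ?_
      push_cast
      ring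
    have e : psi t = (2 * (t - ⌊t⌋) - 1) / 2 := by
      unfold psi Int.fract
      ring
    rw [e]
    exact h2.hasDerivWithinAt
  refine h1.congr_of_eventuallyEq ?_ ?_
  · have h2 : Set.Iio ((⌊t⌋ : ℝ) + 1) ∈ 𝓝 t := Iio_mem_nhds (Int.lt_floor_add_one t)
    filter_upwards [mem_nhdsWithin_of_mem_nhds h2, self_mem_nhdsWithin] with s hs1 hs2
    have h3 : ⌊s⌋ = ⌊t⌋ := by
      rw [Int.floor_eq_iff]
      have h4 := Int.floor_le t
      have h5 : t ≤ s := hs2
      have h6 : s < (⌊t⌋ : ℝ) + 1 := hs1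
      constructor <;> linarith
    unfold P2 Int.fract
    rw [h3]
  · unfold P2 Int.fract
    ring

lemma deriv_P2_comp (m : ℕ) (β t : ℝ) :
    HasDerivWithinAt (fun s : ℝ => P2 (Int.fract (m * s + β)) / 2) (m * psi (m * t + β))
      (Set.Ici t) t := by
  have h1 : HasDerivWithinAt (fun s : ℝ => (m : ℝ) * s + β) (m : ℝ) (Set.Ici t) t := by
    have : HasDerivAt (fun s : ℝ => (m : ℝ) * s + β) (m * 1) t :=
      ((hasDerivAt_id t).const_mul (m : ℝ)).add_const β
    rw [mul_one] at this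
    exact this.hasDerivWithinAt
  have h2 := deriv_P2 (m * t + β)
  have h3 : Set.MapsTo (fun s : ℝ => (m : ℝ) * s + β) (Set.Ici t) (Set.Ici (m * t + β)) := by
    intro s hs
    have hs' : t ≤ s := hs
    show (m : ℝ) * t + β ≤ m * s + β
    have : (m : ℝ) * t ≤ m * s := mul_le_mul_of_nonneg_left hs' (Nat.cast_nonneg _)
    linarith
  have h4 := HasDerivWithinAt.scomp t h2 h1 h3
  exact h4

lemma continuous_P2 : Continuous (fun s : ℝ => P2 (Int.fract s)) := by
  have h1 : (fun s : ℝ => P2 (Int.fract s)) = fun s => (Real.pi ^ 2)⁻¹ *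
      ∑' n : ℕ, 1 / (n : ℝ) ^ 2 * Real.cos (2 * Real.pi * n * s) := by
    funext s
    rw [(cos_sum s).tsum_eq]
    have hpi := Real.pi_pos.ne'
    field_simp
  rw [h1]
  refine continuous_const.mul (continuous_tsum (u := fun n : ℕ => 1 / (n : ℝ) ^ 2)
    (fun n => by fun_prop) (Real.summable_one_div_nat_pow.2 (by norm_num)) fun n x => ?_)
  rw [norm_mul, Real.norm_of_nonneg (by positivity : (0 : ℝ) ≤ 1 / (n : ℝ) ^ 2), Real.norm_eq_abs]
  calc 1 / (n : ℝ) ^ 2 * |Real.cos (2 * Real.pi * n * x)| ≤ 1 / (n : ℝ) ^ 2 * 1 :=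
        mul_le_mul_of_nonneg_left (Real.abs_cos_le_one _) (by positivity)
    _ = _ := mul_one _

section
variable {q : ℕ} (χ : DirichletCharacter ℂ q)

lemma continuous_Theta : Continuous (Theta χ) := by
  unfold Theta
  refine continuous_finsetSum _ fun j _ => continuous_const.mul ?_
  refine Complex.continuous_ofReal.comp ?_
  exact (continuous_P2.comp (by fun_prop : Continuous fun s : ℝ => s + (j : ℝ) / q)).div_const 2

lemma deriv_Theta (m : ℕ) (hm : 1 ≤ m) (t : ℝ) :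
    HasDerivWithinAt (fun s : ℝ => ((muR m : ℝ) : ℂ) * χ (m : ZMod q) / (m : ℂ) ^ 2 *
      Theta χ (m * s)) ((1 / (m : ℂ)) * (((muR m : ℝ) : ℂ) * χ (m : ZMod q) * Phi χ (m * t)))
      (Set.Ici t) t := by
  have hmC : (m : ℂ) ≠ 0 := by exact_mod_cast (by omega : m ≠ 0)
  have h1 : HasDerivWithinAt (fun s : ℝ => Theta χ (m * s)) (m * Phi χ (m * t)) (Set.Ici t) t := by
    unfold Theta Phi
    rw [mul_sum]
    have h2 : ∀ j ∈ range q, HasDerivWithinAt
        (fun s : ℝ => cf χ j * ((P2 (Int.fract (m * s + j / q)) / 2 : ℝ) : ℂ))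
        ((m : ℂ) * (cf χ j * ((psi (m * t + j / q) : ℝ) : ℂ))) (Set.Ici t) t := by
      intro j _
      have h3 := (deriv_P2_comp m (j / q) t).ofReal_comp
      have h4 := h3.const_mul (cf χ j)
      refine h4.congr_deriv ?_
      push_cast
      ring
    exact HasDerivWithinAt.fun_sum h2
  have h2 := h1.const_mul (((muR m : ℝ) : ℂ) * χ (m : ZMod q) / (m : ℂ) ^ 2)
  refine h2.congr_deriv ?_
  field_simp

/-- the partial sums -/
noncomputable def SS (M : ℕ) (y : ℝ) : ℂ :=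
  ∑ m ∈ Icc 1 M, (1 / (m : ℂ)) * (((muR m : ℝ) : ℂ) * χ (m : ZMod q) * Phi χ (m * y))

/-- the sum of the absolute values of the coefficients -/
noncomputable def AA : ℝ := ∑ j ∈ range q, ‖cf χ j‖

lemma AA_nonneg : 0 ≤ AA χ := sum_nonneg fun _ _ => norm_nonneg _

lemma tail_Phi (hq : 1 ≤ q) : ∃ M0 : ℕ, 2 ≤ M0 ∧ ∀ M : ℕ, M0 ≤ M → 1 ≤ Real.log M ∧
    ∀ M' : ℕ, M ≤ M' → ∀ y : ℝ,
      ‖∑ m ∈ Ioc M M', (1 / (m : ℂ)) * (((muR m : ℝ) : ℂ) * χ (m : ZMod q) * Phi χ (m * y))‖ ≤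
        AA χ ^ 2 * (3 / Real.log M) := by
  obtain ⟨M0, h0, h⟩ := tail_psi
  refine ⟨M0, h0, fun M hM => ⟨(h M hM).1, fun M' hM' y => ?_⟩⟩
  have h1 := (h M hM).2 M' hM'
  have e : ∑ m ∈ Ioc M M', (1 / (m : ℂ)) * (((muR m : ℝ) : ℂ) * χ (m : ZMod q) * Phi χ (m * y)) =
      ∑ i ∈ range q, ∑ j ∈ range q, cf χ i * cf χ j * ∑ m ∈ Ioc M M', (1 / (m : ℂ)) *
        ((((muR m : ℝ) : ℂ) * ee ((m : ℝ) * (i / q))) * (psi (m * y + j / q) : ℂ)) := by
    have e1 : ∀ m ∈ Ioc M M', (1 / (m : ℂ)) * (((muR m : ℝ) : ℂ) * χ (m : ZMod q) * Phi χ (m * y)) =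
        ∑ i ∈ range q, ∑ j ∈ range q, cf χ i * cf χ j * ((1 / (m : ℂ)) *
        ((((muR m : ℝ) : ℂ) * ee ((m : ℝ) * (i / q))) * (psi (m * y + j / q) : ℂ))) := by
      intro m _
      have e2 : (1 / (m : ℂ)) * (((muR m : ℝ) : ℂ) * χ (m : ZMod q) * Phi χ (m * y)) =
          (1 / (m : ℂ)) * ((muR m : ℝ) : ℂ) * ((∑ i ∈ range q, cf χ i * ee ((i : ℝ) * m / q)) *
            ∑ j ∈ range q, cf χ j * ((psi (m * y + j / q) : ℝ) : ℂ)) := by
        rw [cf_inv χ hq m]
        unfold Phi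
        ring
      rw [e2, sum_mul_sum, mul_sum]
      refine sum_congr rfl fun i _ => ?_
      rw [mul_sum]
      refine sum_congr rfl fun j _ => ?_
      have : (m : ℝ) * (i / q) = (i : ℝ) * m / q := by ring
      rw [this]
      ring
    rw [sum_congr rfl e1, sum_comm]
    refine sum_congr rfl fun i _ => ?_
    rw [sum_comm]
    refine sum_congr rfl fun j _ => ?_
    rw [mul_sum]
  rw [e]
  refine (norm_sum_le _ _).trans ?_
  have h2 : ∀ i ∈ range q, ‖∑ j ∈ range q, cf χ i * cf χ j * ∑ m ∈ Ioc M M', (1 / (m : ℂ)) *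
        ((((muR m : ℝ) : ℂ) * ee ((m : ℝ) * (i / q))) * (psi (m * y + j / q) : ℂ))‖ ≤
      ‖cf χ i‖ * (AA χ * (3 / Real.log M)) := by
    intro i _
    refine (norm_sum_le _ _).trans ?_
    unfold AA
    rw [sum_mul, mul_sum]
    refine sum_le_sum fun j _ => ?_
    rw [norm_mul, norm_mul, mul_assoc]
    exact mul_le_mul_of_nonneg_left (mul_le_mul_of_nonneg_left (h1 _ _ _) (norm_nonneg _))
      (norm_nonneg _)
  refine (sum_le_sum h2).trans ?_
  rw [← sum_mul]
  exact le_of_eq (by unfold AA; ring)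

/-- the trigonometric limit -/
noncomputable def LL (y : ℝ) : ℂ :=
  (2 * Real.pi * Complex.I * ee y - χ (-1) * (2 * Real.pi * Complex.I * ee (-y))) /
    (4 * Real.pi ^ 2)

lemma deriv_EE (y : ℝ) : HasDerivAt (fun s : ℝ => EE χ s / (4 * Real.pi ^ 2)) (LL χ y) y := by
  have h1 : ∀ t : ℝ, HasDerivAt (fun s : ℝ => ee s) (2 * Real.pi * Complex.I * ee t) t := by
    intro t
    unfold ee
    have h2 : HasDerivAt (fun s : ℝ => 2 * (Real.pi : ℂ) * Complex.I * (s : ℂ))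
        (2 * (Real.pi : ℂ) * Complex.I * 1) t :=
      (Complex.ofRealCLM.hasDerivAt.const_mul _)
    have h3 := h2.cexp
    refine h3.congr_deriv ?_
    ring
  have h2 : HasDerivAt (fun s : ℝ => ee (-s)) (-(2 * Real.pi * Complex.I * ee (-y))) y := by
    have h3 := (h1 (-y)).scomp y (hasDerivAt_neg y)
    refine h3.congr_deriv ?_
    simp
  have h3 := ((h1 y).fun_add (h2.const_mul (χ (-1)))).div_const (4 * (Real.pi : ℂ) ^ 2)
  unfold EE LL
  refine h3.congr_deriv ?_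
  ring

/-- **uniform convergence** -/
theorem unif_conv (hq : 1 ≤ q) : ∃ M0 : ℕ, 2 ≤ M0 ∧ ∀ M : ℕ, M0 ≤ M → 1 ≤ Real.log M ∧
    ∀ y : ℝ, ‖LL χ y - SS χ M y‖ ≤ AA χ ^ 2 * (3 / Real.log M) := by
  obtain ⟨M0, h0, h⟩ := tail_Phi χ hq
  refine ⟨M0, h0, fun M hM => ⟨(h M hM).1, fun y => ?_⟩⟩
  set ε := AA χ ^ 2 * (3 / Real.log M) with hε
  have hl : 0 < Real.log M := by linarith [(h M hM).1]
  have hε0 : 0 ≤ ε := by positivity
  set T : ℕ → ℝ → ℂ := fun m s => ((muR m : ℝ) : ℂ) * χ (m : ZMod q) / (m : ℂ) ^ 2 * Theta χ (m * s)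
    with hT
  -- the mean value inequality for the tails
  have key : ∀ M' : ℕ, M ≤ M' → ∀ s : ℝ, y ≤ s →
      ‖∑ m ∈ Ioc M M', T m s - ∑ m ∈ Ioc M M', T m y‖ ≤ ε * (s - y) := by
    intro M' hM' s hs
    refine norm_image_sub_le_of_norm_deriv_right_le_segment
      (f := fun s => ∑ m ∈ Ioc M M', T m s)
      (f' := fun s => ∑ m ∈ Ioc M M', (1 / (m : ℂ)) * (((muR m : ℝ) : ℂ) * χ (m : ZMod q) *
        Phi χ (m * s))) (a := y) (b := s) ?_ ?_ ?_ s ⟨hs, le_rfl⟩
    · apply Continuous.continuousOn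
      refine continuous_finsetSum _ fun m _ => continuous_const.mul ?_
      exact (continuous_Theta χ).comp (by fun_prop)
    · intro x _
      refine HasDerivWithinAt.fun_sum fun m hm => ?_
      have hm1 : 1 ≤ m := by
        have := (mem_Ioc.1 hm).1
        omega
      exact deriv_Theta χ m hm1 x
    · intro x _
      exact (h M hM).2 M' hM' x
  -- the limit
  set D : ℝ → ℂ := fun s => EE χ s / (4 * Real.pi ^ 2) - ∑ m ∈ Icc 1 M, T m s with hD
  have hlim : ∀ s : ℝ, Tendsto (fun M' : ℕ => ∑ m ∈ Ioc M M', T m s) atTop (𝓝 (D s)) := by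
    intro s
    have h1 := (hasSum_inv χ hq s).tendsto_sum_nat
    have h2 : Tendsto (fun M' : ℕ => ∑ m ∈ range (M' + 1), T m s) atTop
        (𝓝 (EE χ s / (4 * Real.pi ^ 2))) := (tendsto_add_atTop_iff_nat 1).2 h1
    have h3 := h2.sub_const (∑ m ∈ Icc 1 M, T m s)
    refine h3.congr' ?_
    filter_upwards [eventually_ge_atTop M] with M' hM'
    have e1 : ∑ m ∈ range (M' + 1), T m s = ∑ m ∈ Icc 1 M', T m s := by
      rw [range_eq_Ico, sum_eq_sum_Ico_succ_bot (by omega)]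
      have e2 : T 0 s = 0 := by simp [hT]
      rw [e2, zero_add]
      rfl
    rw [e1]
    have e3 : Icc 1 M' = Icc 1 M ∪ Ioc M M' := by
      ext m
      simp only [mem_Icc, mem_union, mem_Ioc]
      omega
    have e4 : Disjoint (Icc 1 M) (Ioc M M') := by
      rw [disjoint_left]
      intro m h1 h2
      rw [mem_Icc] at h1
      rw [mem_Ioc] at h2
      omega
    rw [e3, sum_union e4]
    ring
  have hDlip : ∀ s : ℝ, y ≤ s → ‖D s - D y‖ ≤ ε * (s - y) := by
    intro s hs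
    have h1 := ((hlim s).sub (hlim y)).norm
    refine le_of_tendsto h1 ?_
    filter_upwards [eventually_ge_atTop M] with M' hM'
    exact key M' hM' s hs
  have hder : HasDerivWithinAt D (LL χ y - SS χ M y) (Set.Ici y) y := by
    refine HasDerivWithinAt.sub (deriv_EE χ y).hasDerivWithinAt ?_
    unfold SS
    refine HasDerivWithinAt.fun_sum fun m hm => ?_
    exact deriv_Theta χ m (mem_Icc.1 hm).1 y
  have hslope : Tendsto (slope D y) (𝓝[>] y) (𝓝 (LL χ y - SS χ M y)) := by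
    have h1 := hasDerivWithinAt_iff_tendsto_slope.1 hder
    have h2 : Set.Ici y \ {y} = Set.Ioi y := by
      ext s
      simp only [Set.mem_sdiff, Set.mem_Ici, Set.mem_singleton_iff, Set.mem_Ioi]
      constructor
      · rintro ⟨h3, h4⟩
        exact lt_of_le_of_ne h3 (Ne.symm h4)
      · intro h3
        exact ⟨h3.le, h3.ne'⟩
    rw [h2] at h1
    exact h1
  refine le_of_tendsto hslope.norm ?_
  filter_upwards [self_mem_nhdsWithin] with s hs
  have hs' : y < s := hs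
  rw [slope_def_module, norm_smul, norm_inv, Real.norm_of_nonneg (by linarith), inv_mul_eq_div,
    div_le_iff₀ (by linarith)]
  exact hDlip s hs'.le

end

end Pool.Agent.N915.ML
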