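import Pool.Agent.N915.ML.Dav
import Pool.Agent.W565.MOFS

/-! # The inversion formula for characters: the integrated form -/

set_option autoImplicit false

namespace Pool.Agent.N915.ML

open Finset Filter Topology
open Pool.Agent.H807R2.Dav (ee norm_ee ee_add ee_zero ee_int ee_add_int ee_pow ee_eq)
open Pool.Agent.H373R2.T7 (muR muR_abs sup_mu ev_log' ev_L')
open Pool.Agent.W565.MOFS (P2 cos_sum)

section
variable {q : ℕ} (χ : DirichletCharacter ℂ q)

/-- the coefficients of the character -/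
noncomputable def cf (j : ℕ) : ℂ :=
  (1 / (q : ℂ)) * ∑ k ∈ range q, χ (k : ZMod q) * ee (-((j : ℝ) * k / q))

lemma cf_inv (hq : 1 ≤ q) (k : ℕ) :
    ∑ j ∈ range q, cf χ j * ee ((j : ℝ) * k / q) = χ (k : ZMod q) := by
  have hqC : (q : ℂ) ≠ 0 := by exact_mod_cast (by omega : q ≠ 0)
  have e : ∑ j ∈ range q, cf χ j * ee ((j : ℝ) * k / q) =
      (1 / (q : ℂ)) * ∑ i ∈ range q, χ (i : ZMod q) *
        ∑ j ∈ range q, ee (((j : ℕ) : ℝ) * (((k : ℝ) - i) / q)) := by
    unfold cf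
    simp only [mul_sum, sum_mul]
    rw [sum_comm]
    refine sum_congr rfl fun i _ => sum_congr rfl fun j _ => ?_
    have : ee (-((j : ℝ) * i / q)) * ee ((j : ℝ) * k / q) =
        ee (((j : ℕ) : ℝ) * (((k : ℝ) - i) / q)) := by
      rw [← ee_add]
      congr 1
      ring
    linear_combination (1 / (q : ℂ)) * χ (i : ZMod q) * this
  rw [e]
  have h1 : ∀ i ∈ range q, χ (i : ZMod q) *
      ∑ j ∈ range q, ee (((j : ℕ) : ℝ) * (((k : ℝ) - i) / q)) =
      if k % q = i then χ (i : ZMod q) * q else 0 := by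
    intro i hi
    rw [orth q hq k i (mem_range.1 hi)]
    split_ifs <;> simp
  rw [sum_congr rfl h1, sum_ite_eq, if_pos (mem_range.2 (Nat.mod_lt _ (by omega))),
    ZMod.natCast_mod]
  field_simp

lemma cf_inv_neg (hq : 1 ≤ q) (k : ℕ) :
    ∑ j ∈ range q, cf χ j * ee (-((j : ℝ) * k / q)) = χ (-1) * χ (k : ZMod q) := by
  have h := cf_inv χ hq ((q - 1) * k)
  have e1 : (((q - 1) * k : ℕ) : ZMod q) = (-1) * (k : ZMod q) := by
    push_cast [hq]
    simp
  rw [e1, map_mul] at h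
  rw [← h]
  refine sum_congr rfl fun j _ => ?_
  congr 1
  have hq0 : (q : ℝ) ≠ 0 := by exact_mod_cast (by omega : q ≠ 0)
  have e2 : (j : ℝ) * (((q - 1) * k : ℕ) : ℝ) / q = -((j : ℝ) * k / q) + ((j * k : ℤ) : ℝ) := by
    push_cast [hq]
    field_simp
    ring
  rw [e2, ee_add_int]

lemma cf_sum (hq : 2 ≤ q) : ∑ j ∈ range q, cf χ j = 0 := by
  have h := cf_inv χ (by omega) 0
  have : Nontrivial (ZMod q) := ZMod.nontrivial_iff.2 (by omega)
  have e0 : ((0 : ℕ) : ZMod q) = 0 := Nat.cast_zero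
  rw [e0, MulChar.map_zero] at h
  rw [← h]
  refine sum_congr rfl fun j _ => ?_
  simp [ee_zero]

/-- the trigonometric function -/
noncomputable def EE (y : ℝ) : ℂ := ee y + χ (-1) * ee (-y)

lemma norm_chi (a : ZMod q) : ‖χ a‖ ≤ 1 := DirichletCharacter.norm_le_one χ a

lemma norm_EE (y : ℝ) : ‖EE χ y‖ ≤ 2 := by
  unfold EE
  refine (norm_add_le _ _).trans ?_
  rw [norm_mul, norm_ee, norm_ee, mul_one]
  linarith [norm_chi χ (-1)]

/-- integral of the step function -/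
noncomputable def Theta (y : ℝ) : ℂ :=
  ∑ j ∈ range q, cf χ j * ((P2 (Int.fract (y + j / q)) / 2 : ℝ) : ℂ)

/-- the step function -/
noncomputable def Phi (y : ℝ) : ℂ := ∑ j ∈ range q, cf χ j * ((psi (y + j / q) : ℝ) : ℂ)

lemma ee_cos (t : ℝ) : ((Real.cos (2 * Real.pi * t) : ℝ) : ℂ) = (ee t + ee (-t)) / 2 := by
  rw [ee_eq, ee_eq, Complex.exp_mul_I, Complex.exp_mul_I]
  push_cast
  have e1 : (2 * (Real.pi : ℂ) * (-(t : ℂ))) = -(2 * Real.pi * t) := by ring
  rw [e1, Complex.cos_neg, Complex.sin_neg]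
  ring

/-- the terms of the Fourier series -/
noncomputable def GG (y : ℝ) (n : ℕ) : ℂ :=
  χ (n : ZMod q) * EE χ (n * y) / (4 * Real.pi ^ 2 * (n : ℂ) ^ 2)

lemma GG_zero (y : ℝ) : GG χ y 0 = 0 := by simp [GG]

lemma norm_GG (y : ℝ) (n : ℕ) : ‖GG χ y n‖ ≤ 1 / (n : ℝ) ^ 2 := by
  unfold GG
  rcases Nat.eq_zero_or_pos n with h | h
  · subst h
    simp
  have hn : (0 : ℝ) < n := by exact_mod_cast h
  rw [norm_div, norm_mul, norm_mul, norm_mul, norm_pow, norm_pow, Complex.norm_real,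
    Real.norm_of_nonneg Real.pi_pos.le, Complex.norm_natCast, Complex.norm_ofNat]
  have hpi := Real.pi_gt_three
  rw [div_le_div_iff₀ (by positivity) (by positivity)]
  have h1 : ‖χ (n : ZMod q)‖ * ‖EE χ (n * y)‖ ≤ 1 * 2 :=
    mul_le_mul (norm_chi χ _) (norm_EE χ _) (norm_nonneg _) (by norm_num)
  have h2 : (2 : ℝ) ≤ 4 * Real.pi ^ 2 := by nlinarith
  calc ‖χ (n : ZMod q)‖ * ‖EE χ (n * y)‖ * (n : ℝ) ^ 2 ≤ (1 * 2) * (n : ℝ) ^ 2 :=
        mul_le_mul_of_nonneg_right h1 (by positivity)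
    _ ≤ (4 * Real.pi ^ 2) * (n : ℝ) ^ 2 := by
        apply mul_le_mul_of_nonneg_right _ (by positivity)
        linarith
    _ = _ := by ring

lemma hasSum_theta (hq : 1 ≤ q) (y : ℝ) : HasSum (GG χ y) (Theta χ y) := by
  have h : ∀ j ∈ range q, HasSum (fun n : ℕ => cf χ j *
      (((1 / (n : ℝ) ^ 2 * Real.cos (2 * Real.pi * n * (y + j / q))) / (2 * Real.pi ^ 2) : ℝ) : ℂ))
      (cf χ j * ((P2 (Int.fract (y + j / q)) / 2 : ℝ) : ℂ)) := by
    intro j _
    apply HasSum.mul_left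
    rw [Complex.hasSum_ofReal]
    have h1 := (cos_sum (y + j / q)).div_const (2 * Real.pi ^ 2)
    have e1 : Real.pi ^ 2 * P2 (Int.fract (y + j / q)) / (2 * Real.pi ^ 2) =
        P2 (Int.fract (y + j / q)) / 2 := by
      have hpi := Real.pi_pos.ne'
      field_simp
    rw [e1] at h1
    exact h1
  have h2 := hasSum_sum h
  unfold Theta
  convert h2 using 1
  funext n
  have hqR : (q : ℝ) ≠ 0 := by exact_mod_cast (by omega : q ≠ 0)
  have e1 : ∀ j ∈ range q, cf χ j *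
      (((1 / (n : ℝ) ^ 2 * Real.cos (2 * Real.pi * n * (y + j / q))) / (2 * Real.pi ^ 2) : ℝ) : ℂ) =
      (1 / (4 * Real.pi ^ 2 * (n : ℂ) ^ 2)) * (ee (n * y) * (cf χ j * ee ((j : ℝ) * n / q)) +
        ee (-(n * y)) * (cf χ j * ee (-((j : ℝ) * n / q)))) := by
    intro j _
    have e2 : 2 * Real.pi * n * (y + j / q) = 2 * Real.pi * (n * y + j * n / q) := by ring
    rw [e2]
    push_cast
    have e3 := ee_cos (n * y + j * n / q)
    push_cast at e3
    rw [e3]
    have e4 : ee (-((n : ℝ) * y + j * n / q)) = ee (-(n * y)) * ee (-((j : ℝ) * n / q)) := by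
      rw [← ee_add]
      congr 1
      ring
    rw [e4, ee_add]
    have hpi : (Real.pi : ℂ) ≠ 0 := by exact_mod_cast Real.pi_pos.ne'
    field_simp
    ring
  rw [sum_congr rfl e1, ← mul_sum, sum_add_distrib, ← mul_sum, ← mul_sum, cf_inv χ hq,
    cf_inv_neg χ hq]
  unfold GG EE
  rw [show (n : ℝ) * y = n * y from rfl]
  ring

lemma GG_mul (y : ℝ) (m k : ℕ) : GG χ y (m * k) = χ (m : ZMod q) / (m : ℂ) ^ 2 * GG χ (m * y) k := by
  unfold GG
  rcases Nat.eq_zero_or_pos m with h | h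
  · subst h; simp
  have hm : (m : ℂ) ≠ 0 := by exact_mod_cast h.ne'
  push_cast
  rw [map_mul]
  have e : (m : ℝ) * k * y = k * (m * y) := by ring
  rw [e]
  field_simp

lemma sum_mu (n : ℕ) (hn : n ≠ 0) :
    ∑ p ∈ n.divisorsAntidiagonal, ((muR p.1 : ℝ) : ℂ) = if n = 1 then 1 else 0 := by
  have h := congrArg (fun f : ArithmeticFunction ℤ => f n) ArithmeticFunction.moebius_mul_coe_zeta
  simp only [ArithmeticFunction.mul_apply, ArithmeticFunction.one_apply] at h
  have h2 : ∑ p ∈ n.divisorsAntidiagonal, ArithmeticFunction.moebius p.1 = if n = 1 then 1 else 0 := by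
    rw [← h]
    refine sum_congr rfl fun p hp => ?_
    have hp2 : p.2 ≠ 0 := (Nat.ne_zero_of_mem_divisorsAntidiagonal hp).2
    rw [ArithmeticFunction.natCoe_apply, ArithmeticFunction.zeta_apply_ne hp2]
    simp
  unfold muR
  have h3 := congrArg (fun z : ℤ => ((z : ℝ) : ℂ)) h2
  push_cast at h3 ⊢
  rw [h3]
  split_ifs <;> simp

lemma hasSum_pairs (y : ℝ) :
    HasSum (fun p : ℕ × ℕ => ((muR p.1 : ℝ) : ℂ) * GG χ y (p.1 * p.2)) (GG χ y 1) := by
  set f : ℕ × ℕ → ℂ := fun p => ((muR p.1 : ℝ) : ℂ) * GG χ y (p.1 * p.2) with hf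
  have hs : Summable f := by
    have h1 : Summable (fun n : ℕ => 1 / (n : ℝ) ^ 2) := Real.summable_one_div_nat_pow.2 (by norm_num)
    have h2 := h1.mul_of_nonneg h1 (fun n => by positivity) (fun n => by positivity)
    refine Summable.of_norm_bounded h2 fun p => ?_
    simp only [hf]
    rw [norm_mul, Complex.norm_real, Real.norm_eq_abs]
    have h3 := norm_GG χ y (p.1 * p.2)
    have h4 : 1 / ((p.1 * p.2 : ℕ) : ℝ) ^ 2 = 1 / (p.1 : ℝ) ^ 2 * (1 / (p.2 : ℝ) ^ 2) := by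
      push_cast
      rw [mul_pow, one_div_mul_one_div]
    rw [h4] at h3
    calc |muR p.1| * ‖GG χ y (p.1 * p.2)‖ ≤ 1 * (1 / (p.1 : ℝ) ^ 2 * (1 / (p.2 : ℝ) ^ 2)) :=
          mul_le_mul (muR_abs _) h3 (norm_nonneg _) (by norm_num)
      _ = _ := one_mul _
  have h1 : HasSum (f ∘ Equiv.sigmaFiberEquiv (fun p : ℕ × ℕ => p.1 * p.2)) (∑' p, f p) :=
    (Equiv.hasSum_iff _).2 hs.hasSum
  have h2 : ∀ n : ℕ, HasSum (fun c : {p : ℕ × ℕ // p.1 * p.2 = n} => f c.1)
      (if n = 1 then GG χ y 1 else 0) := by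
    intro n
    rcases Nat.eq_zero_or_pos n with h | h
    · subst h
      rw [if_neg (by norm_num)]
      have : (fun c : {p : ℕ × ℕ // p.1 * p.2 = 0} => f c.1) = fun _ => 0 := by
        funext c
        simp only [hf]
        rw [c.2, GG_zero, mul_zero]
      rw [this]
      exact hasSum_zero
    · have h3 : HasSum (({p : ℕ × ℕ | p.1 * p.2 = n}).indicator f)
          (∑ p ∈ n.divisorsAntidiagonal, ({p : ℕ × ℕ | p.1 * p.2 = n}).indicator f p) := by
        apply hasSum_sum_of_ne_finset_zero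
        intro p hp
        rw [Set.indicator_of_notMem]
        intro hp2
        exact hp (Nat.mem_divisorsAntidiagonal.2 ⟨hp2, h.ne'⟩)
      have h4 : ∑ p ∈ n.divisorsAntidiagonal, ({p : ℕ × ℕ | p.1 * p.2 = n}).indicator f p =
          if n = 1 then GG χ y 1 else 0 := by
        have h5 : ∀ p ∈ n.divisorsAntidiagonal, ({p : ℕ × ℕ | p.1 * p.2 = n}).indicator f p =
            ((muR p.1 : ℝ) : ℂ) * GG χ y n := by
          intro p hp
          have hp2 := (Nat.mem_divisorsAntidiagonal.1 hp).1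
          rw [Set.indicator_of_mem (show p ∈ {p : ℕ × ℕ | p.1 * p.2 = n} from hp2)]
          simp only [hf]
          rw [hp2]
        rw [sum_congr rfl h5, ← sum_mul, sum_mu n h.ne']
        split_ifs with h6
        · rw [h6, one_mul]
        · rw [zero_mul]
      rw [h4] at h3
      exact hasSum_subtype_iff_indicator.2 h3
  have h3 : HasSum (fun n : ℕ => if n = 1 then GG χ y 1 else 0) (∑' p, f p) := h1.sigma h2
  have h4 : HasSum (fun n : ℕ => if n = 1 then GG χ y 1 else 0) (GG χ y 1) := hasSum_ite_eq 1 _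
  have h5 := h3.unique h4
  rw [← h5]
  exact hs.hasSum

/-- the inversion formula, integrated -/
theorem hasSum_inv (hq : 1 ≤ q) (y : ℝ) :
    HasSum (fun m : ℕ => ((muR m : ℝ) : ℂ) * χ (m : ZMod q) / (m : ℂ) ^ 2 * Theta χ (m * y))
      (EE χ y / (4 * Real.pi ^ 2)) := by
  have h1 := hasSum_pairs χ y
  have e : GG χ y 1 = EE χ y / (4 * Real.pi ^ 2) := by
    unfold GG
    push_cast
    rw [map_one, one_mul, one_mul]
    ring
  rw [e] at h1
  refine h1.prod_fiberwise fun m => ?_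
  have h2 := (hasSum_theta χ hq (m * y)).mul_left (((muR m : ℝ) : ℂ) * χ (m : ZMod q) / (m : ℂ) ^ 2)
  have e2 : (fun k : ℕ => ((muR m : ℝ) : ℂ) * GG χ y (m * k)) =
      fun k => ((muR m : ℝ) : ℂ) * χ (m : ZMod q) / (m : ℂ) ^ 2 * GG χ (m * y) k := by
    funext k
    rw [GG_mul]
    ring
  rw [← e2] at h2
  exact h2

end

end Pool.Agent.N915.ML
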