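import Pool.Agent.N915.ML.Approx
import Pool.Agent.H373R2.T7.SupMu

/-! # Davenport's estimate with the sawtooth function -/

set_option autoImplicit false

namespace Pool.Agent.N915.ML

open Finset Filter Topology
open Pool.Agent.H807R2.Dav (ee norm_ee ee_add ee_zero ee_int ee_add_int ee_pow ee_eq)
open H419R2.Saw (B B_neg B_add_int B_abs key)
open Pool.Agent.H373R2.T7 (muR muR_abs sup_mu)

lemma abel (w : ℕ → ℂ) (v : ℕ → ℝ) (N : ℕ) :
    ∑ m ∈ Icc 1 N, w m * (v m : ℂ) = (∑ m ∈ Icc 1 N, w m) * v N -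
      ∑ m ∈ range N, (∑ i ∈ Icc 1 m, w i) * ((v (m + 1) - v m : ℝ) : ℂ) := by
  induction N with
  | zero => simp
  | succ N ih =>
    rw [sum_Icc_succ_top (by omega), ih, sum_range_succ, sum_Icc_succ_top (by omega)]
    push_cast
    ring

lemma abel_le (w : ℕ → ℂ) (v : ℕ → ℝ) (N : ℕ) (D : ℝ)
    (hD : ∀ u ≤ N, ‖∑ m ∈ Icc 1 u, w m‖ ≤ D) :
    ‖∑ m ∈ Icc 1 N, w m * (v m : ℂ)‖ ≤ D * (|v N| + ∑ m ∈ range N, |v (m + 1) - v m|) := by
  rw [abel]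
  refine (norm_sub_le _ _).trans ?_
  rw [mul_add, mul_sum]
  apply add_le_add
  · rw [norm_mul, Complex.norm_real, Real.norm_eq_abs]
    exact mul_le_mul_of_nonneg_right (hD N le_rfl) (abs_nonneg _)
  · refine (norm_sum_le _ _).trans (sum_le_sum fun m hm => ?_)
    rw [norm_mul, Complex.norm_real, Real.norm_eq_abs]
    exact mul_le_mul_of_nonneg_right (hD m (mem_range.1 hm).le) (abs_nonneg _)

lemma psi_step (t θ : ℝ) : |psi (t + θ) - psi t| ≤ |θ| + |((⌊t + θ⌋ : ℤ) : ℝ) - ⌊t⌋| := by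
  have : psi (t + θ) - psi t = θ - (((⌊t + θ⌋ : ℤ) : ℝ) - ⌊t⌋) := by
    unfold psi Int.fract
    ring
  rw [this]
  exact abs_sub _ _

lemma floor_var (γ θ : ℝ) (N : ℕ) :
    ∑ m ∈ range N, |((⌊γ + ((m + 1 : ℕ) : ℝ) * θ⌋ : ℤ) : ℝ) - ⌊γ + (m : ℝ) * θ⌋| =
      |((⌊γ + (N : ℝ) * θ⌋ : ℤ) : ℝ) - ⌊γ⌋| := by
  rcases le_total 0 θ with h | h
  · have hmono : ∀ m : ℕ, ⌊γ + (m : ℝ) * θ⌋ ≤ ⌊γ + ((m + 1 : ℕ) : ℝ) * θ⌋ := by
      intro m
      apply Int.floor_mono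
      push_cast
      nlinarith
    have h2 : ∀ m ∈ range N, |((⌊γ + ((m + 1 : ℕ) : ℝ) * θ⌋ : ℤ) : ℝ) - ⌊γ + (m : ℝ) * θ⌋| =
        ((⌊γ + ((m + 1 : ℕ) : ℝ) * θ⌋ : ℤ) : ℝ) - ⌊γ + (m : ℝ) * θ⌋ := by
      intro m _
      rw [abs_of_nonneg]
      have : ((⌊γ + (m : ℝ) * θ⌋ : ℤ) : ℝ) ≤ (⌊γ + ((m + 1 : ℕ) : ℝ) * θ⌋ : ℤ) := by
        exact_mod_cast hmono m
      linarith
    rw [sum_congr rfl h2, sum_range_sub (fun m : ℕ => ((⌊γ + (m : ℝ) * θ⌋ : ℤ) : ℝ))]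
    have h3 : ((⌊γ⌋ : ℤ) : ℝ) ≤ (⌊γ + (N : ℝ) * θ⌋ : ℤ) := by
      have : ⌊γ⌋ ≤ ⌊γ + (N : ℝ) * θ⌋ := Int.floor_mono (by
        have : (0 : ℝ) ≤ N * θ := by positivity
        linarith)
      exact_mod_cast this
    rw [abs_of_nonneg (by linarith)]
    simp
  · have hmono : ∀ m : ℕ, ⌊γ + ((m + 1 : ℕ) : ℝ) * θ⌋ ≤ ⌊γ + (m : ℝ) * θ⌋ := by
      intro m
      apply Int.floor_mono
      push_cast
      nlinarith
    have h2 : ∀ m ∈ range N, |((⌊γ + ((m + 1 : ℕ) : ℝ) * θ⌋ : ℤ) : ℝ) - ⌊γ + (m : ℝ) * θ⌋| =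
        -(((⌊γ + ((m + 1 : ℕ) : ℝ) * θ⌋ : ℤ) : ℝ) - ⌊γ + (m : ℝ) * θ⌋) := by
      intro m _
      rw [abs_of_nonpos]
      have : ((⌊γ + ((m + 1 : ℕ) : ℝ) * θ⌋ : ℤ) : ℝ) ≤ (⌊γ + (m : ℝ) * θ⌋ : ℤ) := by
        exact_mod_cast hmono m
      linarith
    rw [sum_congr rfl h2, sum_neg_distrib,
      sum_range_sub (fun m : ℕ => ((⌊γ + (m : ℝ) * θ⌋ : ℤ) : ℝ))]
    have h3 : ((⌊γ + (N : ℝ) * θ⌋ : ℤ) : ℝ) ≤ (⌊γ⌋ : ℤ) := by
      have : ⌊γ + (N : ℝ) * θ⌋ ≤ ⌊γ⌋ := Int.floor_mono (by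
        have : (N : ℝ) * θ ≤ 0 := mul_nonpos_of_nonneg_of_nonpos (Nat.cast_nonneg _) h
        linarith)
      exact_mod_cast this
    rw [abs_of_nonpos (by linarith)]
    simp

lemma psi_var (γ θ : ℝ) (N : ℕ) :
    ∑ m ∈ range N, |psi (γ + ((m + 1 : ℕ) : ℝ) * θ) - psi (γ + (m : ℝ) * θ)| ≤
      2 * N * |θ| + 1 := by
  have h1 : ∀ m ∈ range N, |psi (γ + ((m + 1 : ℕ) : ℝ) * θ) - psi (γ + (m : ℝ) * θ)| ≤
      |θ| + |((⌊γ + ((m + 1 : ℕ) : ℝ) * θ⌋ : ℤ) : ℝ) - ⌊γ + (m : ℝ) * θ⌋| := by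
    intro m _
    have := psi_step (γ + m * θ) θ
    have e : γ + ((m + 1 : ℕ) : ℝ) * θ = γ + m * θ + θ := by push_cast; ring
    rw [e]
    exact this
  refine (sum_le_sum h1).trans ?_
  rw [sum_add_distrib, floor_var, sum_const, card_range, nsmul_eq_mul]
  have h2 : |((⌊γ + (N : ℝ) * θ⌋ : ℤ) : ℝ) - ⌊γ⌋| ≤ |(N : ℝ) * θ| + 1 := by
    have e1 := Int.floor_le (γ + N * θ)
    have e2 := Int.lt_floor_add_one (γ + N * θ)
    have e3 := Int.floor_le γ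
    have e4 := Int.lt_floor_add_one γ
    rw [abs_le]
    constructor <;> linarith [le_abs_self ((N : ℝ) * θ), neg_abs_le ((N : ℝ) * θ)]
  have h3 : |(N : ℝ) * θ| = N * |θ| := by
    rw [abs_mul, abs_of_nonneg (Nat.cast_nonneg N)]
  rw [h3] at h2
  linarith

/-- orthogonality of the additive characters -/
lemma orth (q : ℕ) (hq : 1 ≤ q) (m c : ℕ) (hc : c < q) :
    ∑ r ∈ range q, ee (((r : ℕ) : ℝ) * (((m : ℝ) - c) / q)) = if m % q = c then (q : ℂ) else 0 := by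
  have hq0 : (q : ℝ) ≠ 0 := by positivity
  have e1 : ∀ r ∈ range q, ee (((r : ℕ) : ℝ) * (((m : ℝ) - c) / q)) = ee (((m : ℝ) - c) / q) ^ r :=
    fun r _ => ee_pow _ _
  rw [sum_congr rfl e1]
  split_ifs with h
  · have h1 : ee (((m : ℝ) - c) / q) = 1 := by
      obtain ⟨k, hk⟩ : ∃ k : ℕ, m = k * q + c := by
        refine ⟨m / q, ?_⟩
        have := Nat.div_add_mod m q
        rw [h] at this
        rw [mul_comm]
        omega
      have h2 : ((m : ℝ) - c) / q = ((k : ℤ) : ℝ) := by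
        rw [hk]
        push_cast
        field_simp
        ring
      rw [h2, ee_int]
    rw [h1]
    simp
  · have h1 : ee (((m : ℝ) - c) / q) ^ q = 1 := by
      rw [← ee_pow]
      have : (q : ℝ) * (((m : ℝ) - c) / q) = (((m : ℤ) - c : ℤ) : ℝ) := by
        push_cast
        field_simp
      rw [this, ee_int]
    have h2 : ee (((m : ℝ) - c) / q) ≠ 1 := by
      intro h3
      unfold ee at h3
      rw [Complex.exp_eq_one_iff] at h3
      obtain ⟨n, hn⟩ := h3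
      have hpi : (2 * (Real.pi : ℂ) * Complex.I) ≠ 0 := Complex.two_pi_I_ne_zero
      have h4 : ((((m : ℝ) - c) / q : ℝ) : ℂ) = n := by
        apply mul_left_cancel₀ hpi
        rw [hn]
        ring
      have h5 : ((m : ℝ) - c) / q = n := by exact_mod_cast h4
      rw [div_eq_iff hq0] at h5
      have h6 : (m : ℤ) - c = n * q := by exact_mod_cast h5
      apply h
      have h7 : (m : ℤ) % q = c := by
        rw [show (m : ℤ) = c + q * n by linarith, Int.add_mul_emod_self_left]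
        exact Int.emod_eq_of_lt (by omega) (by exact_mod_cast hc)
      exact_mod_cast h7
    have h3 := mul_geom_sum (ee (((m : ℝ) - c) / q)) q
    rw [h1, sub_self] at h3
    exact (mul_eq_zero.1 h3).resolve_left (sub_ne_zero.2 h2)

lemma ap_bound (q : ℕ) (hq : 1 ≤ q) (c : ℕ) (hc : c < q) (u : ℕ) (α D : ℝ)
    (hD : ∀ β : ℝ, ‖∑ n ∈ Icc 1 u, ((muR n : ℝ) : ℂ) * ee ((n : ℝ) * β)‖ ≤ D) :
    ‖∑ n ∈ Icc 1 u, (if n % q = c then ((muR n : ℝ) : ℂ) * ee ((n : ℝ) * α) else 0)‖ ≤ D := by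
  have hq0 : (0 : ℝ) < q := by exact_mod_cast hq
  have hqC : (q : ℂ) ≠ 0 := by exact_mod_cast hq0.ne'
  have e : ∑ n ∈ Icc 1 u, (if n % q = c then ((muR n : ℝ) : ℂ) * ee ((n : ℝ) * α) else 0) =
      (1 / (q : ℂ)) * ∑ r ∈ range q, ee (-((r : ℝ) * c / q)) *
        ∑ n ∈ Icc 1 u, ((muR n : ℝ) : ℂ) * ee ((n : ℝ) * (α + r / q)) := by
    simp only [mul_sum]
    rw [sum_comm]
    refine sum_congr rfl fun n _ => ?_
    have h1 : ∀ r ∈ range q, 1 / (q : ℂ) * (ee (-((r : ℝ) * c / q)) *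
        (((muR n : ℝ) : ℂ) * ee ((n : ℝ) * (α + r / q)))) =
        1 / (q : ℂ) * (((muR n : ℝ) : ℂ) * ee ((n : ℝ) * α)) *
          ee (((r : ℕ) : ℝ) * (((n : ℝ) - c) / q)) := by
      intro r _
      have h2 : ee (-((r : ℝ) * c / q)) * ee ((n : ℝ) * (α + r / q)) =
          ee ((n : ℝ) * α) * ee (((r : ℕ) : ℝ) * (((n : ℝ) - c) / q)) := by
        rw [← ee_add, ← ee_add]
        congr 1
        ring
      linear_combination (1 / (q : ℂ) * ((muR n : ℝ) : ℂ)) * h2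
    rw [sum_congr rfl h1, ← mul_sum, orth q hq n c hc]
    split_ifs
    · field_simp
    · simp
  rw [e, norm_mul, norm_div, norm_one, Complex.norm_natCast]
  have h1 : ‖∑ r ∈ range q, ee (-((r : ℝ) * c / q)) *
        ∑ n ∈ Icc 1 u, ((muR n : ℝ) : ℂ) * ee ((n : ℝ) * (α + r / q))‖ ≤ q * D := by
    refine (norm_sum_le _ _).trans ?_
    have : ∀ r ∈ range q, ‖ee (-((r : ℝ) * c / q)) *
        ∑ n ∈ Icc 1 u, ((muR n : ℝ) : ℂ) * ee ((n : ℝ) * (α + r / q))‖ ≤ D := by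
      intro r _
      rw [norm_mul, norm_ee, one_mul]
      exact hD _
    refine (sum_le_sum this).trans ?_
    rw [sum_const, card_range, nsmul_eq_mul]
  calc 1 / (q : ℝ) * _ ≤ 1 / (q : ℝ) * (q * D) := mul_le_mul_of_nonneg_left h1 (by positivity)
    _ = D := by field_simp

lemma major (q : ℕ) (hq : 1 ≤ q) (a : ℤ) (y α β : ℝ) (N : ℕ) (D : ℝ)
    (hD : ∀ u ≤ N, ∀ β : ℝ, ‖∑ n ∈ Icc 1 u, ((muR n : ℝ) : ℂ) * ee ((n : ℝ) * β)‖ ≤ D) :
    ‖∑ m ∈ Icc 1 N, (((muR m : ℝ) : ℂ) * ee ((m : ℝ) * α)) * (psi (m * y + β) : ℂ)‖ ≤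
      q * D * (2 * N * |y - a / q| + 3 / 2) := by
  have hq0 : (0 : ℝ) < q := by exact_mod_cast hq
  have hD0 : 0 ≤ D := (norm_nonneg _).trans (hD 0 (by omega) 0)
  set θ := y - a / q with hθ
  have e : ∑ m ∈ Icc 1 N, (((muR m : ℝ) : ℂ) * ee ((m : ℝ) * α)) * (psi (m * y + β) : ℂ) =
      ∑ c ∈ range q, ∑ m ∈ Icc 1 N,
        (if m % q = c then ((muR m : ℝ) : ℂ) * ee ((m : ℝ) * α) else 0) *
          (psi ((c * a / q + β) + m * θ) : ℂ) := by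
    rw [sum_comm]
    refine sum_congr rfl fun m _ => ?_
    rw [sum_eq_single (m % q)]
    · rw [if_pos rfl]
      congr 2
      obtain ⟨k, hk⟩ : ∃ k : ℕ, m = k * q + m % q := by
        refine ⟨m / q, ?_⟩
        have := Nat.div_add_mod m q
        rw [mul_comm]
        omega
      have hkR : (m : ℝ) = k * q + (m % q : ℕ) := by exact_mod_cast hk
      generalize m % q = c at hkR
      have h2 : (m : ℝ) * y + β = ((c : ℝ) * a / q + β + m * θ) +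
          (((k : ℤ) * a : ℤ) : ℝ) := by
        rw [hθ]
        push_cast
        have h3 : (m : ℝ) * (a / q) = (k : ℝ) * a + (c : ℝ) * a / q := by
          rw [hkR]
          field_simp
        linarith
      rw [h2, psi_add_int]
    · intro c _ hcm
      rw [if_neg (fun h => hcm h.symm), zero_mul]
    · intro h
      exact absurd (mem_range.2 (Nat.mod_lt _ (by omega))) h
  rw [e]
  refine (norm_sum_le _ _).trans ?_
  have h1 : ∀ c ∈ range q, ‖∑ m ∈ Icc 1 N,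
        (if m % q = c then ((muR m : ℝ) : ℂ) * ee ((m : ℝ) * α) else 0) *
          (psi ((c * a / q + β) + m * θ) : ℂ)‖ ≤ D * (2 * N * |θ| + 3 / 2) := by
    intro c hc
    refine (abel_le _ (fun m : ℕ => psi ((c * a / q + β) + m * θ)) N D (fun u hu =>
      ap_bound q hq c (mem_range.1 hc) u α D (hD u hu))).trans ?_
    apply mul_le_mul_of_nonneg_left _ hD0
    have h2 := psi_var (c * a / q + β) θ N
    have h3 := psi_abs ((c * a / q + β) + N * θ)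
    linarith
  refine (sum_le_sum h1).trans ?_
  rw [sum_const, card_range, nsmul_eq_mul]
  exact le_of_eq (by ring)

end Pool.Agent.N915.ML
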