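import Mathlib

/-! # The Thue–Morse number and its multiples -/

set_option autoImplicit false

namespace Pool.Agent.N915.ML

open Finset Filter Topology

/-- the Thue–Morse sequence: the parity of the number of ones in the binary expansion of `n` -/
def tm (n : ℕ) : ℕ := (Nat.digits 2 n).sum % 2

lemma tm_lt (n : ℕ) : tm n < 2 := Nat.mod_lt _ (by norm_num)

lemma tm_zero : tm 0 = 0 := by simp [tm]

lemma tm_even (n : ℕ) : tm (2 * n) = tm n := by
  rcases Nat.eq_zero_or_pos n with h | h
  · subst h; rfl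
  unfold tm
  rw [Nat.digits_def' (by norm_num) (by omega : 0 < 2 * n)]
  simp

lemma tm_odd (n : ℕ) : tm (2 * n + 1) = 1 - tm n := by
  unfold tm
  rw [Nat.digits_def' (by norm_num) (by omega : 0 < 2 * n + 1)]
  have h1 : (2 * n + 1) % 2 = 1 := by omega
  have h2 : (2 * n + 1) / 2 = n := by omega
  rw [h1, h2, List.sum_cons]
  omega

lemma double_odd {n : ℕ} (h : tm n = tm (n + 1)) : n % 2 = 1 := by
  by_contra hn
  obtain ⟨m, rfl⟩ : ∃ m, n = 2 * m := ⟨n / 2, by omega⟩
  rw [tm_even, tm_odd] at h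
  have := tm_lt m
  omega

lemma no_three (n : ℕ) : ¬ (tm n = tm (n + 1) ∧ tm (n + 1) = tm (n + 2)) := by
  rintro ⟨h1, h2⟩
  have h3 := double_odd h1
  have h4 := double_odd h2
  omega

lemma five (n : ℕ) : ∃ i < 4, tm (n + i) = tm (n + i + 1) := by
  by_contra hcon
  push Not at hcon
  have hodd : ∀ m : ℕ, tm (2 * m + 1) ≠ tm (2 * m + 2) → tm m = tm (m + 1) := by
    intro m hm
    rw [tm_odd, show 2 * m + 2 = 2 * (m + 1) by ring, tm_even] at hm
    have h1 := tm_lt m
    have h2 := tm_lt (m + 1)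
    omega
  rcases Nat.even_or_odd' n with ⟨m, hm | hm⟩
  · have h1 := hodd m (by
      have := hcon 1 (by norm_num)
      rwa [hm] at this)
    have h2 := hodd (m + 1) (by
      have := hcon 3 (by norm_num)
      rw [hm] at this
      have e1 : 2 * (m + 1) + 1 = 2 * m + 3 := by ring
      have e2 : 2 * (m + 1) + 2 = 2 * m + 3 + 1 := by ring
      rwa [e1, e2])
    exact no_three m ⟨h1, h2⟩
  · have h1 := hodd m (by
      have := hcon 0 (by norm_num)
      rw [hm] at this
      exact this)
    have h2 := hodd (m + 1) (by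
      have := hcon 2 (by norm_num)
      rw [hm] at this
      have e1 : 2 * (m + 1) + 1 = 2 * m + 1 + 2 := by ring
      have e2 : 2 * (m + 1) + 2 = 2 * m + 1 + 2 + 1 := by ring
      rwa [e1, e2])
    exact no_three m ⟨h1, h2⟩

/-- lengths of the words which determine the residues -/
def wl : ℕ → ℕ
  | 0 => 0
  | j + 1 => 2 * wl j + 5

lemma word_mod (j : ℕ) : ∀ n n' : ℕ, (∀ i < wl j, tm (n + i) = tm (n' + i)) → n % 2 ^ j = n' % 2 ^ j := by
  induction j with
  | zero => intro n n' _; simp [Nat.mod_one]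
  | succ j ih =>
    intro n n' h
    have hw : wl (j + 1) = 2 * wl j + 5 := rfl
    rw [hw] at h
    obtain ⟨i, hi, h1⟩ := five n
    have h2 : tm (n' + i) = tm (n' + i + 1) := by
      rw [← h i (by omega), h1]
      exact h (i + 1) (by omega)
    have h3 := double_odd h1
    have h4 := double_odd h2
    obtain ⟨e, m, m', he, hm, hm'⟩ : ∃ e m m' : ℕ, e < 2 ∧ n + e = 2 * m ∧ n' + e = 2 * m' := by
      refine ⟨n % 2, (n + n % 2) / 2, (n' + n % 2) / 2, by omega, by omega, by omega⟩
    have h5 := ih m m' (fun i hi => by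
      rw [← tm_even (m + i), ← tm_even (m' + i)]
      have e1 : 2 * (m + i) = n + (e + 2 * i) := by omega
      have e2 : 2 * (m' + i) = n' + (e + 2 * i) := by omega
      rw [e1, e2]
      exact h _ (by omega))
    have h6 : m ≡ m' [MOD 2 ^ j] := h5
    have h7 : 2 * m ≡ 2 * m' [MOD 2 * 2 ^ j] := h6.mul_left' 2
    rw [← hm, ← hm', ← pow_succ'] at h7
    exact Nat.ModEq.add_right_cancel' e h7

lemma tm_block (k : ℕ) : ∀ a r : ℕ, r < 2 ^ k → tm (2 ^ k * a + r) = (tm a + tm r) % 2 := by
  induction k with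
  | zero =>
    intro a r hr
    have : r = 0 := by simpa using hr
    subst this
    have := tm_lt a
    simp only [pow_zero, one_mul, add_zero, tm_zero]
    omega
  | succ k ih =>
    intro a r hr
    rw [pow_succ] at hr
    rcases Nat.even_or_odd' r with ⟨s, hs | hs⟩
    · subst hs
      have e : 2 ^ (k + 1) * a + 2 * s = 2 * (2 ^ k * a + s) := by ring
      rw [e, tm_even, tm_even]
      exact ih a s (by omega)
    · subst hs
      have e : 2 ^ (k + 1) * a + (2 * s + 1) = 2 * (2 ^ k * a + s) + 1 := by ring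
      rw [e, tm_odd, tm_odd, ih a s (by omega)]
      have h1 := tm_lt a
      have h2 := tm_lt s
      omega

lemma tm_pow (k r : ℕ) (hr : r < 2 ^ k) : tm (2 ^ k + r) = 1 - tm r := by
  have h := tm_block k 1 r hr
  rw [mul_one] at h
  rw [h]
  have h1 : tm 1 = 1 := by decide
  rw [h1]
  have := tm_lt r
  omega

/-- complementary positions -/
lemma tm_flip (k a r : ℕ) (hr : r < 2 ^ k) :
    tm (2 ^ (k + 1) * a + 2 ^ k + r) = 1 - tm (2 ^ (k + 1) * a + r) := by
  have h1 := tm_block (k + 1) a r (by rw [pow_succ]; omega)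
  have h2 := tm_block (k + 1) a (2 ^ k + r) (by rw [pow_succ]; omega)
  rw [← add_assoc] at h2
  rw [h1, h2, tm_pow k r hr]
  have h3 := tm_lt a
  have h4 := tm_lt r
  omega

/-- the Thue–Morse number shifted by `n` digits -/
noncomputable def tail (n : ℕ) : ℝ := ∑' k : ℕ, (tm (n + k) : ℝ) / 2 ^ (k + 1)

lemma tm_le_real (n : ℕ) : (tm n : ℝ) ≤ 1 := by
  have := tm_lt n
  exact_mod_cast (by omega : tm n ≤ 1)

lemma summable_tail (n : ℕ) : Summable fun k : ℕ => (tm (n + k) : ℝ) / 2 ^ (k + 1) := by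
  refine Summable.of_nonneg_of_le (fun k => by positivity) (fun k => ?_)
    (summable_geometric_two)
  rw [div_le_iff₀ (by positivity)]
  have h1 := tm_le_real (n + k)
  have h2 : (1 / 2 : ℝ) ^ k * 2 ^ (k + 1) = 2 := by
    rw [pow_succ, ← mul_assoc, ← mul_pow]
    norm_num
  rw [h2]
  linarith

lemma tail_nonneg (n : ℕ) : 0 ≤ tail n := tsum_nonneg fun _ => by positivity

lemma tail_step (n : ℕ) : tail n = (tm n : ℝ) / 2 + tail (n + 1) / 2 := by
  unfold tail
  rw [(summable_tail n).tsum_eq_zero_add, ← tsum_div_const]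
  congr 1
  · simp
  · refine tsum_congr fun k => ?_
    rw [show n + (k + 1) = n + 1 + k by ring, pow_succ]
    field_simp

lemma tail_le (n : ℕ) : tail n ≤ 1 := by
  have h1 : tail n ≤ ∑' k : ℕ, (1 / 2 : ℝ) ^ k * (1 / 2) := by
    refine (summable_tail n).tsum_le_tsum (fun k => ?_) (summable_geometric_two.mul_right _)
    rw [div_le_iff₀ (by positivity)]
    have h1 := tm_le_real (n + k)
    have h2 : (1 / 2 : ℝ) ^ k * (1 / 2) * 2 ^ (k + 1) = 1 := by
      rw [pow_succ]
      have : (1 / 2 : ℝ) ^ k * 2 ^ k = 1 := by rw [← mul_pow]; norm_num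
      linear_combination this
    rw [h2]
    exact h1
  rw [tsum_mul_right, tsum_geometric_two] at h1
  linarith

lemma tail_bounds (n : ℕ) : 1 / 8 ≤ tail n ∧ tail n ≤ 7 / 8 := by
  have h0 := tail_step n
  have h1 := tail_step (n + 1)
  have h2 := tail_step (n + 1 + 1)
  have h3 := tail_nonneg (n + 1 + 1 + 1)
  have h4 := tail_le (n + 1 + 1 + 1)
  have h5 := no_three n
  have a0 := tm_lt n
  have a1 := tm_lt (n + 1)
  have a2 := tm_lt (n + 1 + 1)
  rcases Nat.lt_or_ge (tm n) 1 with b0 | b0 <;> rcases Nat.lt_or_ge (tm (n + 1)) 1 with b1 | b1 <;>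
    rcases Nat.lt_or_ge (tm (n + 1 + 1)) 1 with b2 | b2
  · exact absurd ⟨by omega, by show tm (n + 1) = tm (n + 1 + 1); omega⟩ h5
  · have c0 : (tm n : ℝ) = 0 := by exact_mod_cast (by omega : tm n = 0)
    have c1 : (tm (n + 1) : ℝ) = 0 := by exact_mod_cast (by omega : tm (n + 1) = 0)
    have c2 : (tm (n + 1 + 1) : ℝ) = 1 := by exact_mod_cast (by omega : tm (n + 1 + 1) = 1)
    rw [c0] at h0; rw [c1] at h1; rw [c2] at h2
    constructor <;> linarith
  · have c0 : (tm n : ℝ) = 0 := by exact_mod_cast (by omega : tm n = 0)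
    have c1 : (tm (n + 1) : ℝ) = 1 := by exact_mod_cast (by omega : tm (n + 1) = 1)
    have c2 : (tm (n + 1 + 1) : ℝ) = 0 := by exact_mod_cast (by omega : tm (n + 1 + 1) = 0)
    rw [c0] at h0; rw [c1] at h1; rw [c2] at h2
    constructor <;> linarith
  · have c0 : (tm n : ℝ) = 0 := by exact_mod_cast (by omega : tm n = 0)
    have c1 : (tm (n + 1) : ℝ) = 1 := by exact_mod_cast (by omega : tm (n + 1) = 1)
    have c2 : (tm (n + 1 + 1) : ℝ) = 1 := by exact_mod_cast (by omega : tm (n + 1 + 1) = 1)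
    rw [c0] at h0; rw [c1] at h1; rw [c2] at h2
    constructor <;> linarith
  · have c0 : (tm n : ℝ) = 1 := by exact_mod_cast (by omega : tm n = 1)
    have c1 : (tm (n + 1) : ℝ) = 0 := by exact_mod_cast (by omega : tm (n + 1) = 0)
    have c2 : (tm (n + 1 + 1) : ℝ) = 0 := by exact_mod_cast (by omega : tm (n + 1 + 1) = 0)
    rw [c0] at h0; rw [c1] at h1; rw [c2] at h2
    constructor <;> linarith
  · have c0 : (tm n : ℝ) = 1 := by exact_mod_cast (by omega : tm n = 1)
    have c1 : (tm (n + 1) : ℝ) = 0 := by exact_mod_cast (by omega : tm (n + 1) = 0)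
    have c2 : (tm (n + 1 + 1) : ℝ) = 1 := by exact_mod_cast (by omega : tm (n + 1 + 1) = 1)
    rw [c0] at h0; rw [c1] at h1; rw [c2] at h2
    constructor <;> linarith
  · have c0 : (tm n : ℝ) = 1 := by exact_mod_cast (by omega : tm n = 1)
    have c1 : (tm (n + 1) : ℝ) = 1 := by exact_mod_cast (by omega : tm (n + 1) = 1)
    have c2 : (tm (n + 1 + 1) : ℝ) = 0 := by exact_mod_cast (by omega : tm (n + 1 + 1) = 0)
    rw [c0] at h0; rw [c1] at h1; rw [c2] at h2
    constructor <;> linarith
  · exact absurd ⟨by omega, by show tm (n + 1) = tm (n + 1 + 1); omega⟩ h5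

/-- close tails agree in the first digits -/
lemma close_word (l : ℕ) : ∀ n n' : ℕ, |tail n - tail n'| < 1 / 8 * (1 / 2) ^ l →
    ∀ i ≤ l, tm (n + i) = tm (n' + i) := by
  induction l with
  | zero =>
    intro n n' h i hi
    have hi0 : i = 0 := by omega
    subst hi0
    rw [add_zero, add_zero]
    have h1 := tail_step n
    have h2 := tail_step n'
    have b1 := tail_bounds (n + 1)
    have b2 := tail_bounds (n' + 1)
    have a1 := tm_lt n
    have a2 := tm_lt n'
    rw [abs_lt] at h
    by_contra hne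
    rcases Nat.lt_or_ge (tm n) 1 with c | c
    · have c1 : (tm n : ℝ) = 0 := by exact_mod_cast (by omega : tm n = 0)
      have c2 : (tm n' : ℝ) = 1 := by exact_mod_cast (by omega : tm n' = 1)
      rw [c1] at h1; rw [c2] at h2
      simp only [pow_zero, mul_one] at h
      linarith [h.1, b1.1, b1.2, b2.1, b2.2]
    · have c1 : (tm n : ℝ) = 1 := by exact_mod_cast (by omega : tm n = 1)
      have c2 : (tm n' : ℝ) = 0 := by exact_mod_cast (by omega : tm n' = 0)
      rw [c1] at h1; rw [c2] at h2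
      simp only [pow_zero, mul_one] at h
      linarith [h.2, b1.1, b1.2, b2.1, b2.2]
  | succ l ih =>
    intro n n' h i hi
    have hlt : |tail n - tail n'| < 1 / 8 * (1 / 2) ^ l := by
      refine h.trans_le ?_
      rw [pow_succ]
      have : (0 : ℝ) < (1 / 2) ^ l := by positivity
      linarith
    have h0 := ih n n' hlt 0 (by omega)
    rw [add_zero, add_zero] at h0
    rcases Nat.eq_zero_or_pos i with hi0 | hi0
    · subst hi0
      rw [add_zero, add_zero]
      exact h0
    · have h1 := tail_step n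
      have h2 := tail_step n'
      have h3 : |tail (n + 1) - tail (n' + 1)| < 1 / 8 * (1 / 2) ^ l := by
        have h4 : tail n - tail n' = (tail (n + 1) - tail (n' + 1)) / 2 := by
          rw [h1, h2, h0]
          ring
        rw [h4, abs_div, abs_two, pow_succ] at h
        linarith
      have h4 := ih (n + 1) (n' + 1) h3 (i - 1) (by omega)
      rw [show n + 1 + (i - 1) = n + i by omega, show n' + 1 + (i - 1) = n' + i by omega] at h4
      exact h4

lemma close_mod (j n n' : ℕ) (h : |tail n - tail n'| < 1 / 8 * (1 / 2) ^ (wl j)) :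
    n % 2 ^ j = n' % 2 ^ j :=
  word_mod j n n' fun i hi => close_word (wl j) n n' h i hi.le

/-- the number of close tails -/
lemma card_near (j X : ℕ) (c : ℝ) :
    (((range X).filter fun n => |tail n - c| < 1 / 16 * (1 / 2) ^ (wl j)).card : ℝ) ≤
      X / 2 ^ j + 1 := by
  set S := (range X).filter fun n => |tail n - c| < 1 / 16 * (1 / 2) ^ (wl j) with hS
  have hinj : Set.InjOn (fun n : ℕ => n / 2 ^ j) S := by
    intro n hn n' hn' h
    have h1 := (mem_filter.1 (mem_coe.1 hn)).2
    have h2 := (mem_filter.1 (mem_coe.1 hn')).2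
    have h3 : |tail n - tail n'| < 1 / 8 * (1 / 2) ^ (wl j) := by
      rw [abs_lt] at h1 h2 ⊢
      constructor <;> linarith [h1.1, h1.2, h2.1, h2.2]
    have h4 := close_mod j n n' h3
    have h5 : n / 2 ^ j = n' / 2 ^ j := h
    rw [← Nat.div_add_mod n (2 ^ j), ← Nat.div_add_mod n' (2 ^ j), h4, h5]
  have h1 : S.card ≤ X / 2 ^ j + 1 := by
    rw [← card_image_of_injOn hinj, ← card_range (X / 2 ^ j + 1)]
    apply card_le_card
    intro m hm
    obtain ⟨n, hn, rfl⟩ := mem_image.1 hm
    have h2 : n < X := mem_range.1 (mem_filter.1 hn).1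
    rw [mem_range]
    have := Nat.div_le_div_right (c := 2 ^ j) h2.le
    show n / 2 ^ j < X / 2 ^ j + 1
    omega
  have h2 : ((X / 2 ^ j : ℕ) : ℝ) ≤ X / 2 ^ j := by
    have := @Nat.cast_div_le ℝ _ _ _ X (2 ^ j)
    push_cast at this
    exact this
  have h3 : (S.card : ℝ) ≤ ((X / 2 ^ j : ℕ) : ℝ) + 1 := by exact_mod_cast h1
  linarith

lemma tail_flip (L : ℕ) : ∀ n n' : ℕ, (∀ i < L, tm (n' + i) = 1 - tm (n + i)) →
    |tail n + tail n' - 1| ≤ (1 / 2) ^ L := by
  induction L with
  | zero =>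
    intro n n' _
    have h1 := tail_bounds n
    have h2 := tail_bounds n'
    rw [pow_zero, abs_le]
    constructor <;> linarith [h1.1, h1.2, h2.1, h2.2]
  | succ L ih =>
    intro n n' h
    have h1 := ih (n + 1) (n' + 1) (fun i hi => by
      have := h (i + 1) (by omega)
      rw [show n + 1 + i = n + (i + 1) by ring, show n' + 1 + i = n' + (i + 1) by ring]
      exact this)
    have h2 := h 0 (by omega)
    rw [add_zero, add_zero] at h2
    have h3 := tm_lt n
    have h4 : (tm n' : ℝ) = 1 - tm n := by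
      rw [h2, Nat.cast_sub (by omega)]
      simp
    have h5 := tail_step n
    have h6 := tail_step n'
    have h7 : tail n + tail n' - 1 = (tail (n + 1) + tail (n' + 1) - 1) / 2 := by
      rw [h5, h6, h4]
      ring
    rw [h7, abs_div, abs_two, pow_succ]
    linarith

end Pool.Agent.N915.ML
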