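import Pool.Agent.N915.ML.TM

/-! # All multiples of the Thue–Morse number are simply normal in base two -/

set_option autoImplicit false

namespace Pool.Agent.N915.ML

open Finset Filter Topology

/-- one or zero, minus one half -/
noncomputable def ff (q n : ℕ) : ℝ := (if Int.fract ((q : ℝ) * tail n) < 1 / 2 then 1 else 0) - 1 / 2

lemma ff_abs (q n : ℕ) : |ff q n| ≤ 1 / 2 := by
  unfold ff
  split_ifs <;> norm_num

lemma pair_zero (q n n' : ℕ) (θ : ℝ) (hθ : |tail n + tail n' - 1| ≤ θ)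
    (h : ∀ p : ℤ, 2 * q * θ < |2 * q * tail n - p|) : ff q n + ff q n' = 0 := by
  have hq0 : (0 : ℝ) ≤ q := Nat.cast_nonneg _
  set v := (q : ℝ) * tail n with hv
  set x := Int.fract v with hx
  have hvx : v = ⌊v⌋ + x := (Int.floor_add_fract v).symm
  have hx0 := Int.fract_nonneg v
  have hx1 := Int.fract_lt_one v
  set e := (q : ℝ) * (tail n + tail n' - 1) with he
  have hv' : (q : ℝ) * tail n' = q - v + e := by
    rw [hv, he]
    ring
  have he2 : |e| ≤ q * θ := by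
    rw [he, abs_mul, abs_of_nonneg hq0]
    exact mul_le_mul_of_nonneg_left hθ hq0
  have h0 := h (2 * ⌊v⌋)
  have h1 := h (2 * ⌊v⌋ + 1)
  have h2 := h (2 * ⌊v⌋ + 2)
  push_cast at h0 h1 h2
  have e0 : 2 * (q : ℝ) * tail n = 2 * (⌊v⌋ + x) := by
    rw [← hvx, hv]
    ring
  rw [e0] at h0 h1 h2
  have g0 : (q : ℝ) * θ < x := by
    have : 2 * ((⌊v⌋ : ℝ) + x) - 2 * ⌊v⌋ = 2 * x := by ring
    rw [this, abs_of_nonneg (by linarith)] at h0
    linarith
  have g2 : x < 1 - q * θ := by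
    have : 2 * ((⌊v⌋ : ℝ) + x) - (2 * ⌊v⌋ + 2) = -(2 * (1 - x)) := by ring
    rw [this, abs_neg, abs_of_nonneg (by linarith)] at h2
    linarith
  have g1 : (q : ℝ) * θ < |x - 1 / 2| := by
    have : 2 * ((⌊v⌋ : ℝ) + x) - (2 * ⌊v⌋ + 1) = 2 * (x - 1 / 2) := by ring
    rw [this, abs_mul, abs_two] at h1
    linarith
  obtain ⟨he3, he4⟩ := abs_le.1 he2
  have hf : Int.fract ((q : ℝ) * tail n') = 1 - x + e := by
    rw [hv', Int.fract_eq_iff]
    refine ⟨by linarith, by linarith, ⟨q - ⌊v⌋ - 1, ?_⟩⟩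
    push_cast
    linarith
  unfold ff
  rw [hf]
  change (if x < 1 / 2 then (1 : ℝ) else 0) - 1 / 2 +
    ((if 1 - x + e < 1 / 2 then (1 : ℝ) else 0) - 1 / 2) = 0
  rcases lt_or_ge x (1 / 2) with h3 | h3
  · rw [abs_of_neg (by linarith)] at g1
    rw [if_pos h3, if_neg (by linarith)]
    norm_num
  · rw [abs_of_nonneg (by linarith)] at g1
    rw [if_neg (by linarith), if_pos (by linarith)]
    norm_num

/-- close to a fraction with denominator `2 q` -/
def Near (q j n : ℕ) : Prop := ∃ p ∈ range (2 * q + 1), |tail n - p / (2 * q)| <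
  1 / 16 * (1 / 2) ^ (wl j)

lemma far (q j n : ℕ) (hq : 1 ≤ q) (h : ¬ Near q j n) (p : ℤ) :
    2 * q * (1 / 2 : ℝ) ^ (wl j + 5) < |2 * q * tail n - p| := by
  have hq0 : (1 : ℝ) ≤ q := by exact_mod_cast hq
  have hw : (1 / 2 : ℝ) ^ (wl j) ≤ 1 := pow_le_one₀ (by norm_num) (by norm_num)
  have hw0 : (0 : ℝ) < (1 / 2) ^ (wl j) := by positivity
  have e : (1 / 2 : ℝ) ^ (wl j + 5) = 1 / 32 * (1 / 2) ^ (wl j) := by
    rw [pow_add]
    norm_num
    ring
  rw [e]
  have b := tail_bounds n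
  rcases lt_or_ge p 0 with h1 | h1
  · have h2 : (p : ℝ) ≤ -1 := by exact_mod_cast (by omega : p ≤ -1)
    have h3 : (0 : ℝ) ≤ 2 * q * tail n := by
      have := tail_nonneg n
      positivity
    have h4 : (q : ℝ) / 4 ≤ 2 * q * tail n := by nlinarith [b.1]
    rw [abs_of_nonneg (by linarith)]
    nlinarith
  · rcases lt_or_ge (2 * (q : ℤ)) p with h2 | h2
    · have h3 : (2 * (q : ℝ)) + 1 ≤ p := by exact_mod_cast h2
      have h4 : 2 * q * tail n ≤ 7 / 4 * q := by nlinarith [b.2]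
      rw [abs_of_nonpos (by linarith)]
      nlinarith
    · obtain ⟨r, rfl⟩ : ∃ r : ℕ, p = r := ⟨p.toNat, by omega⟩
      have h3 : r ∈ range (2 * q + 1) := mem_range.2 (by omega)
      have h4 : ¬ |tail n - r / (2 * q)| < 1 / 16 * (1 / 2) ^ (wl j) := fun h5 => h ⟨r, h3, h5⟩
      rw [not_lt] at h4
      have h5 : 2 * q * tail n - ((r : ℤ) : ℝ) = 2 * q * (tail n - r / (2 * q)) := by
        push_cast
        field_simp
      rw [h5, abs_mul, abs_of_nonneg (by linarith : (0 : ℝ) ≤ 2 * q)]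
      have h6 : 2 * (q : ℝ) * (1 / 32 * (1 / 2) ^ (wl j)) < 2 * q * (1 / 16 * (1 / 2) ^ (wl j)) := by
        apply mul_lt_mul_of_pos_left _ (by linarith)
        linarith
      exact h6.trans_le (mul_le_mul_of_nonneg_left h4 (by linarith))

open Classical in
lemma card_Near (q j X : ℕ) :
    (((range X).filter (Near q j)).card : ℝ) ≤ (2 * q + 1) * (X / 2 ^ j + 1) := by
  have h1 : (range X).filter (Near q j) ⊆ (range (2 * q + 1)).biUnion fun p : ℕ =>
      (range X).filter fun n => |tail n - (p : ℝ) / (2 * q)| < 1 / 16 * (1 / 2) ^ (wl j) := by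
    intro n hn
    rw [mem_filter] at hn
    obtain ⟨h2, p, hp, h3⟩ := hn
    exact mem_biUnion.2 ⟨p, hp, mem_filter.2 ⟨h2, h3⟩⟩
  have h2 := (card_le_card h1).trans card_biUnion_le
  have h3 : (((range X).filter (Near q j)).card : ℝ) ≤ ∑ p ∈ range (2 * q + 1),
      (((range X).filter fun n => |tail n - (p : ℝ) / (2 * q)| <
        1 / 16 * (1 / 2) ^ (wl j)).card : ℝ) := by exact_mod_cast h2
  refine h3.trans ((sum_le_sum fun p _ => card_near j X _).trans (le_of_eq ?_))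
  rw [sum_const, card_range, nsmul_eq_mul]
  push_cast
  ring

lemma sum_blocks (f : ℕ → ℝ) (P J : ℕ) :
    ∑ n ∈ range (P * J), f n = ∑ a ∈ range J, ∑ r ∈ range P, f (P * a + r) := by
  induction J with
  | zero => simp
  | succ J ih => rw [Nat.mul_succ, sum_range_add, ih, sum_range_succ]

open Classical in
lemma main_sum (q j k J : ℕ) (hq : 1 ≤ q) (hk : wl j + 5 ≤ 2 ^ k) :
    |∑ n ∈ range (2 ^ (k + 1) * J), ff q n| ≤
      J * (wl j + 5) + (2 * q + 1) * (2 ^ (k + 1) * J / 2 ^ j + 1) := by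
  set L := wl j + 5 with hL
  rw [sum_blocks]
  have h1 : ∀ a ∈ range J, ∑ r ∈ range (2 ^ (k + 1)), ff q (2 ^ (k + 1) * a + r) =
      ∑ r ∈ range (2 ^ k), (ff q (2 ^ (k + 1) * a + r) + ff q (2 ^ (k + 1) * a + 2 ^ k + r)) := by
    intro a _
    rw [sum_add_distrib, pow_succ, mul_two, sum_range_add]
    congr 1
    refine sum_congr rfl fun r _ => ?_
    congr 1
    ring
  rw [sum_congr rfl h1]
  have h2 : ∀ a ∈ range J, ∀ r ∈ range (2 ^ k),
      |ff q (2 ^ (k + 1) * a + r) + ff q (2 ^ (k + 1) * a + 2 ^ k + r)| ≤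
        (if 2 ^ k < r + L then 1 else 0) + if Near q j (2 ^ (k + 1) * a + r) then 1 else 0 := by
    intro a _ r hr
    have hr' := mem_range.1 hr
    by_cases h3 : 2 ^ k < r + L
    · rw [if_pos h3]
      have h4 := abs_add_le (ff q (2 ^ (k + 1) * a + r)) (ff q (2 ^ (k + 1) * a + 2 ^ k + r))
      have h5 := ff_abs q (2 ^ (k + 1) * a + r)
      have h6 := ff_abs q (2 ^ (k + 1) * a + 2 ^ k + r)
      split_ifs <;> linarith
    · by_cases h4 : Near q j (2 ^ (k + 1) * a + r)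
      · rw [if_pos h4]
        have h4 := abs_add_le (ff q (2 ^ (k + 1) * a + r)) (ff q (2 ^ (k + 1) * a + 2 ^ k + r))
        have h5 := ff_abs q (2 ^ (k + 1) * a + r)
        have h6 := ff_abs q (2 ^ (k + 1) * a + 2 ^ k + r)
        split_ifs <;> linarith
      · rw [if_neg h3, if_neg h4]
        have h5 := tail_flip L (2 ^ (k + 1) * a + r) (2 ^ (k + 1) * a + 2 ^ k + r) (fun i hi => by
          have h6 : r + i < 2 ^ k := by omega
          have := tm_flip k a (r + i) h6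
          rw [← add_assoc, ← add_assoc] at this
          exact this)
        rw [pair_zero q _ _ _ h5 (far q j _ hq h4)]
        simp
  have h3 : |∑ a ∈ range J, ∑ r ∈ range (2 ^ k), (ff q (2 ^ (k + 1) * a + r) +
      ff q (2 ^ (k + 1) * a + 2 ^ k + r))| ≤ ∑ a ∈ range J, ∑ r ∈ range (2 ^ k),
        ((if 2 ^ k < r + L then 1 else 0) + if Near q j (2 ^ (k + 1) * a + r) then (1 : ℝ) else 0) :=
    (abs_sum_le_sum_abs _ _).trans (sum_le_sum fun a ha =>
      (abs_sum_le_sum_abs _ _).trans (sum_le_sum fun r hr => h2 a ha r hr))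
  refine h3.trans ?_
  simp only [sum_add_distrib]
  apply add_le_add
  · rw [sum_const, card_range, nsmul_eq_mul]
    apply mul_le_mul_of_nonneg_left _ (Nat.cast_nonneg _)
    rw [← sum_filter, sum_const, nsmul_eq_mul, mul_one]
    have h4 : (range (2 ^ k)).filter (fun r => 2 ^ k < r + L) ⊆ Ico (2 ^ k - L) (2 ^ k) := by
      intro r hr
      rw [mem_filter, mem_range] at hr
      rw [mem_Ico]
      omega
    have h5 := card_le_card h4
    rw [Nat.card_Ico] at h5
    have h6 : ((range (2 ^ k)).filter (fun r => 2 ^ k < r + L)).card ≤ L := by omega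
    have h7 : (((range (2 ^ k)).filter (fun r => 2 ^ k < r + L)).card : ℝ) ≤ (L : ℝ) := by
      exact_mod_cast h6
    refine h7.trans (le_of_eq ?_)
    rw [hL]
    push_cast
    ring
  · have h4 : ∑ a ∈ range J, ∑ r ∈ range (2 ^ k),
        (if Near q j (2 ^ (k + 1) * a + r) then (1 : ℝ) else 0) ≤
        ∑ a ∈ range J, ∑ r ∈ range (2 ^ (k + 1)),
          (if Near q j (2 ^ (k + 1) * a + r) then (1 : ℝ) else 0) := by
      refine sum_le_sum fun a _ => sum_le_sum_of_subset_of_nonneg ?_ fun r _ _ => ?_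
      · apply range_subset_range.2
        rw [pow_succ]
        omega
      · split_ifs <;> norm_num
    refine h4.trans ?_
    rw [← sum_blocks (fun n => if Near q j n then (1 : ℝ) else 0), ← sum_filter, sum_const,
      nsmul_eq_mul, mul_one]
    have h5 := card_Near q j (2 ^ (k + 1) * J)
    push_cast at h5
    exact h5

lemma sum_any (q j k X : ℕ) (hq : 1 ≤ q) (hk : wl j + 5 ≤ 2 ^ k) :
    |∑ n ∈ range X, ff q n| ≤
      X / 2 ^ (k + 1) * (wl j + 5) + (2 * q + 1) * (X / 2 ^ j + 1) + 2 ^ (k + 1) := by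
  set P := 2 ^ (k + 1) with hP
  have hP0 : 0 < P := by positivity
  have hPR : (0 : ℝ) < P := by exact_mod_cast hP0
  set J := X / P with hJ
  have h1 := main_sum q j k J hq hk
  rw [← hP] at h1
  have h2 : X = P * J + X % P := (Nat.div_add_mod X P).symm
  have h3 : ∑ n ∈ range X, ff q n = ∑ n ∈ range (P * J), ff q n +
      ∑ r ∈ range (X % P), ff q (P * J + r) := by
    conv_lhs => rw [h2]
    rw [sum_range_add]
  rw [h3]
  have h4 : |∑ r ∈ range (X % P), ff q (P * J + r)| ≤ P := by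
    refine (abs_sum_le_sum_abs _ _).trans ((sum_le_sum fun r _ => ff_abs q _).trans ?_)
    rw [sum_const, card_range, nsmul_eq_mul]
    have : ((X % P : ℕ) : ℝ) ≤ P := by exact_mod_cast (Nat.mod_lt X hP0).le
    have h5 : (0 : ℝ) ≤ ((X % P : ℕ) : ℝ) := Nat.cast_nonneg _
    linarith
  have h5 : (J : ℝ) ≤ X / P := Nat.cast_div_le
  have h6 : (P : ℝ) * J ≤ X := by
    rw [le_div_iff₀ hPR] at h5
    linarith
  have h7 : (P : ℝ) = 2 ^ (k + 1) := by
    rw [hP]
    push_cast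
    ring
  have h8 : (2 * (q : ℝ) + 1) * (2 ^ (k + 1) * J / 2 ^ j + 1) ≤ (2 * q + 1) * (X / 2 ^ j + 1) := by
    apply mul_le_mul_of_nonneg_left _ (by positivity)
    rw [← h7]
    have := div_le_div_of_nonneg_right h6 (by positivity : (0 : ℝ) ≤ 2 ^ j)
    linarith
  have h9 : (J : ℝ) * (wl j + 5) ≤ X / 2 ^ (k + 1) * (wl j + 5) := by
    apply mul_le_mul_of_nonneg_right _ (by positivity)
    rw [← h7]
    exact h5
  have h10 := abs_add_le (∑ n ∈ range (P * J), ff q n) (∑ r ∈ range (X % P), ff q (P * J + r))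
  rw [h7] at h4
  linarith

theorem tendsto_ff (q : ℕ) (hq : 1 ≤ q) :
    Tendsto (fun X : ℕ => (∑ n ∈ range X, ff q n) / X) atTop (𝓝 0) := by
  rw [Metric.tendsto_atTop]
  intro ε hε
  obtain ⟨j, hj⟩ := exists_pow_lt_of_lt_one (show (0 : ℝ) < ε / (4 * (2 * q + 1)) by positivity)
    (show (1 / 2 : ℝ) < 1 by norm_num)
  obtain ⟨k1, hk1⟩ := exists_pow_lt_of_lt_one (show (0 : ℝ) < ε / (4 * (wl j + 5)) by positivity)
    (show (1 / 2 : ℝ) < 1 by norm_num)
  set k := k1 + (wl j + 5) with hk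
  have hk2 : wl j + 5 ≤ 2 ^ k := by
    have : wl j + 5 ≤ k := by omega
    exact this.trans (Nat.lt_two_pow_self).le
  obtain ⟨X0, hX0⟩ := exists_nat_gt ((2 * (q : ℝ) + 1 + 2 ^ (k + 1)) / (ε / 4))
  refine ⟨max X0 1, fun X hX => ?_⟩
  have hX1 : X0 ≤ X := (le_max_left _ _).trans hX
  have hX2 : (1 : ℝ) ≤ X := by exact_mod_cast (le_max_right X0 1).trans hX
  have hX3 : (2 * (q : ℝ) + 1 + 2 ^ (k + 1)) / (ε / 4) < X := hX0.trans_le (by exact_mod_cast hX1)
  rw [div_lt_iff₀ (by positivity)] at hX3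
  have h1 := sum_any q j k X hq hk2
  rw [Real.dist_eq, sub_zero, abs_div, abs_of_pos (by linarith : (0 : ℝ) < X),
    div_lt_iff₀ (by linarith)]
  refine h1.trans_lt ?_
  have h2 : (2 * (q : ℝ) + 1) * (1 / 2 ^ j) < ε / 4 := by
    have e : (1 / 2 : ℝ) ^ j = 1 / 2 ^ j := by rw [one_div_pow]
    rw [e, lt_div_iff₀ (by positivity)] at hj
    linarith
  have h3 : (1 / 2 ^ (k + 1) : ℝ) * (wl j + 5) < ε / 4 := by
    have e : (1 / 2 : ℝ) ^ k1 = 1 / 2 ^ k1 := by rw [one_div_pow]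
    rw [e, lt_div_iff₀ (by positivity)] at hk1
    have h4 : (1 / 2 ^ (k + 1) : ℝ) ≤ 1 / 2 ^ k1 := by
      apply one_div_le_one_div_of_le (by positivity)
      exact pow_le_pow_right₀ (by norm_num) (by omega)
    have h5 : (0 : ℝ) < wl j + 5 := by positivity
    nlinarith
  have h4 : (X : ℝ) / 2 ^ (k + 1) * (wl j + 5) = ((1 / 2 ^ (k + 1) : ℝ) * (wl j + 5)) * X := by ring
  have h5 : (2 * (q : ℝ) + 1) * (X / 2 ^ j + 1) = ((2 * (q : ℝ) + 1) * (1 / 2 ^ j)) * X +
      (2 * q + 1) := by ring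
  rw [h4, h5]
  have h6 : ((1 / 2 ^ (k + 1) : ℝ) * (wl j + 5)) * X ≤ ε / 4 * X :=
    mul_le_mul_of_nonneg_right h3.le (by linarith)
  have h7 : ((2 * (q : ℝ) + 1) * (1 / 2 ^ j)) * X ≤ ε / 4 * X :=
    mul_le_mul_of_nonneg_right h2.le (by linarith)
  nlinarith

/-- the Thue–Morse number -/
noncomputable def tau : ℝ := ∑' k : ℕ, (tm k : ℝ) / 2 ^ (k + 1)

lemma tau_eq : tau = tail 0 := by
  unfold tau tail
  refine tsum_congr fun k => ?_
  rw [zero_add]

lemma tau_pow (n : ℕ) : ∃ z : ℤ, tau * 2 ^ n = z + tail n := by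
  induction n with
  | zero => exact ⟨0, by rw [tau_eq]; simp⟩
  | succ n ih =>
    obtain ⟨z, hz⟩ := ih
    refine ⟨2 * z + tm n, ?_⟩
    have h1 := tail_step n
    rw [pow_succ, ← mul_assoc, hz, h1]
    push_cast
    ring

lemma fract_mul (q n : ℕ) : Int.fract ((q : ℝ) * tau * 2 ^ n) = Int.fract ((q : ℝ) * tail n) := by
  obtain ⟨z, hz⟩ := tau_pow n
  have h1 : (q : ℝ) * tau * 2 ^ n = q * tail n + ((q * z : ℤ) : ℝ) := by
    rw [mul_assoc, hz]
    push_cast
    ring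
  rw [h1, Int.fract_add_intCast]

end Pool.Agent.N915.ML
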