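import Pool.Agent.N915.ML.Crit2
import Pool.Agent.N915.ML.TM2
import Pool.Agent.H534R3.WE

/-! # Words of digits -/

set_option autoImplicit false

namespace Pool.Agent.N915.ML

open Finset Filter Topology
open Pool.Agent.H534R3.UDist (UD Weyl ud_of_weyl)

/-- the `i`-th digit of `x` after the point in base `b` -/
noncomputable def digit (b : ℕ) (x : ℝ) (i : ℕ) : ℤ := ⌊x * (b : ℝ) ^ i⌋ % (b : ℤ)

/-- the number of `1 ≤ i ≤ N` such that the word `w` of length `k` occurs at the place `i` -/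
noncomputable def count (b : ℕ) (x : ℝ) (k : ℕ) (w : ℕ → ℤ) (N : ℕ) : ℕ :=
  ((Icc 1 N).filter fun i => ∀ j < k, digit b x (i + j) = w j).card

def IsWord (b k : ℕ) (w : ℕ → ℤ) : Prop := ∀ j < k, 0 ≤ w j ∧ w j < b

/-- the value of the word -/
def val (b : ℕ) (w : ℕ → ℤ) : ℕ → ℤ
  | 0 => 0
  | k + 1 => val b w k * b + w k

lemma val_bounds (b : ℕ) (w : ℕ → ℤ) (k : ℕ) (h : IsWord b k w) :
    0 ≤ val b w k ∧ val b w k < (b : ℤ) ^ k := by
  induction k with
  | zero => simp [val]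
  | succ k ih =>
    obtain ⟨h1, h2⟩ := ih fun j hj => h j (by omega)
    obtain ⟨h3, h4⟩ := h k (by omega)
    have hb : (0 : ℤ) < b := by omega
    show 0 ≤ val b w k * b + w k ∧ val b w k * b + w k < (b : ℤ) ^ (k + 1)
    refine ⟨by positivity, ?_⟩
    rw [pow_succ]
    have : (val b w k + 1) * b ≤ (b : ℤ) ^ k * b := mul_le_mul_of_nonneg_right (by omega) hb.le
    nlinarith

lemma floor_mul (b : ℕ) (hb : 1 ≤ b) (z : ℝ) : ⌊z * b⌋ = b * ⌊z⌋ + ⌊z * b⌋ % b := by
  have hbZ : (0 : ℤ) < b := by exact_mod_cast hb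
  have hbR : (0 : ℝ) < b := by exact_mod_cast hb
  have h1 : (b : ℤ) * ⌊z⌋ ≤ ⌊z * b⌋ := by
    rw [Int.le_floor]
    push_cast
    rw [mul_comm]
    exact mul_le_mul_of_nonneg_right (Int.floor_le z) hbR.le
  have h2 : ⌊z * b⌋ < (b : ℤ) * (⌊z⌋ + 1) := by
    rw [Int.floor_lt]
    push_cast
    rw [mul_comm (b : ℝ)]
    exact mul_lt_mul_of_pos_right (Int.lt_floor_add_one z) hbR
  have h3 : (⌊z * b⌋ - b * ⌊z⌋) % b = ⌊z * b⌋ - b * ⌊z⌋ :=
    Int.emod_eq_of_lt (by linarith) (by linarith)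
  have h4 : (⌊z * b⌋ - b * ⌊z⌋) % (b : ℤ) = ⌊z * b⌋ % b := by
    rw [Int.sub_mul_emod_self_left]
  omega

lemma word_iff (b : ℕ) (hb : 1 ≤ b) (w : ℕ → ℤ) (y : ℝ) (k : ℕ) (h : IsWord b k w) :
    (∀ j < k, ⌊y * (b : ℝ) ^ (j + 1)⌋ % (b : ℤ) = w j) ↔
      ⌊y * (b : ℝ) ^ k⌋ = (b : ℤ) ^ k * ⌊y⌋ + val b w k := by
  have hbZ : (0 : ℤ) < b := by exact_mod_cast hb
  induction k with
  | zero => simp [val]
  | succ k ih =>
    have ih' := ih fun j hj => h j (by omega)
    have h1 := floor_mul b hb (y * (b : ℝ) ^ k)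
    have e1 : y * (b : ℝ) ^ k * b = y * (b : ℝ) ^ (k + 1) := by ring
    rw [e1] at h1
    obtain ⟨h3, h4⟩ := h k (by omega)
    have h5 := Int.emod_nonneg ⌊y * (b : ℝ) ^ (k + 1)⌋ hbZ.ne'
    have h6 := Int.emod_lt_of_pos ⌊y * (b : ℝ) ^ (k + 1)⌋ hbZ
    have hval : val b w (k + 1) = val b w k * b + w k := rfl
    constructor
    · intro hw
      have h2 := ih'.1 fun j hj => hw j (by omega)
      have h7 := hw k (by omega)
      rw [h7, h2] at h1
      rw [h1, hval]
      ring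
    · intro hw
      have h8 : (b : ℤ) * ⌊y * (b : ℝ) ^ k⌋ + ⌊y * (b : ℝ) ^ (k + 1)⌋ % b =
          b * ((b : ℤ) ^ k * ⌊y⌋ + val b w k) + w k := by
        rw [← h1, hw, hval]
        ring
      have h9 : ⌊y * (b : ℝ) ^ k⌋ = (b : ℤ) ^ k * ⌊y⌋ + val b w k := by
        by_contra hne
        rcases lt_or_gt_of_ne hne with h10 | h10
        · have : (b : ℤ) * (⌊y * (b : ℝ) ^ k⌋ + 1) ≤ b * ((b : ℤ) ^ k * ⌊y⌋ + val b w k) :=
            mul_le_mul_of_nonneg_left (by omega) hbZ.le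
          linarith
        · have : (b : ℤ) * ((b : ℤ) ^ k * ⌊y⌋ + val b w k + 1) ≤ b * ⌊y * (b : ℝ) ^ k⌋ :=
            mul_le_mul_of_nonneg_left (by omega) hbZ.le
          linarith
      rw [h9] at h8
      intro j hj
      rcases Nat.lt_or_ge j k with hjk | hjk
      · exact ih'.2 h9 j hjk
      · have : j = k := by omega
        subst this
        linarith

lemma cell_iff (B : ℕ) (hB : 1 ≤ B) (y : ℝ) (a : ℤ) :
    ((a : ℝ) / B ≤ Int.fract y ∧ Int.fract y < ((a : ℝ) + 1) / B) ↔ ⌊y * B⌋ = B * ⌊y⌋ + a := by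
  have hBR : (0 : ℝ) < B := by exact_mod_cast hB
  rw [div_le_iff₀ hBR, lt_div_iff₀ hBR, Int.floor_eq_iff]
  unfold Int.fract
  push_cast
  constructor
  · rintro ⟨h1, h2⟩
    constructor <;> nlinarith
  · rintro ⟨h1, h2⟩
    constructor <;> nlinarith

lemma count_eq (b : ℕ) (hb : 1 ≤ b) (x : ℝ) (k : ℕ) (w : ℕ → ℤ) (h : IsWord b k w) (N : ℕ) :
    count b x k w N = vis (range N) (fun n => x * (b : ℝ) ^ n) ((val b w k : ℝ) / (b ^ k : ℕ))
      (((val b w k : ℝ) + 1) / (b ^ k : ℕ)) := by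
  classical
  unfold count vis
  refine (card_bij (fun n _ => n + 1) ?_ ?_ ?_).symm
  · intro n hn
    rw [mem_filter, mem_range] at hn
    rw [mem_filter, mem_Icc]
    refine ⟨⟨by omega, by omega⟩, ?_⟩
    have h1 := (cell_iff (b ^ k) (Nat.one_le_pow _ _ hb) _ _).1 hn.2
    push_cast at h1
    have h2 := (word_iff b hb w _ k h).2 h1
    intro j hj
    have h3 := h2 j hj
    unfold digit
    rw [mul_assoc, ← pow_add] at h3
    rw [show n + 1 + j = n + (j + 1) by ring]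
    exact h3
  · intro a _ c _ h1
    simpa using h1
  · intro i hi
    rw [mem_filter, mem_Icc] at hi
    obtain ⟨⟨h1, h2⟩, h3⟩ := hi
    refine ⟨i - 1, ?_, by omega⟩
    rw [mem_filter, mem_range]
    refine ⟨by omega, ?_⟩
    rw [cell_iff (b ^ k) (Nat.one_le_pow _ _ hb)]
    push_cast
    rw [← word_iff b hb w _ k h]
    intro j hj
    have h4 := h3 j hj
    unfold digit at h4
    rw [mul_assoc, ← pow_add]
    rw [show i - 1 + (j + 1) = i + j by omega]
    exact h4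

/-- every cell is given by a word -/
lemma exists_word (b : ℕ) (hb : 1 ≤ b) (k a : ℕ) (ha : a < b ^ k) :
    ∃ w : ℕ → ℤ, IsWord b k w ∧ val b w k = a := by
  have hbZ : (0 : ℤ) < b := by exact_mod_cast hb
  refine ⟨fun j => ((a / b ^ (k - 1 - j) : ℕ) : ℤ) % b, fun j _ =>
    ⟨Int.emod_nonneg _ hbZ.ne', Int.emod_lt_of_pos _ hbZ⟩, ?_⟩
  have key : ∀ i ≤ k, val b (fun j => ((a / b ^ (k - 1 - j) : ℕ) : ℤ) % b) i =
      ((a / b ^ (k - i) : ℕ) : ℤ) := by
    intro i
    induction i with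
    | zero =>
      intro _
      show (0 : ℤ) = _
      rw [Nat.sub_zero, Nat.div_eq_of_lt ha]
      rfl
    | succ i ih =>
      intro hi
      show val b _ i * b + ((a / b ^ (k - 1 - i) : ℕ) : ℤ) % b = _
      rw [ih (by omega)]
      have e1 : k - i = (k - 1 - i) + 1 := by omega
      have e2 : k - (i + 1) = k - 1 - i := by omega
      rw [e1, e2, pow_succ, ← Nat.div_div_eq_div_mul]
      push_cast
      have := Int.ediv_mul_add_emod ((a : ℤ) / (b : ℤ) ^ (k - 1 - i)) b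
      exact this
  rw [key k le_rfl]
  simp

/-- frequencies of all words of length `k` -/
def Freq (b k : ℕ) (x : ℝ) : Prop := ∀ w : ℕ → ℤ, IsWord b k w →
  Tendsto (fun N : ℕ => (count b x k w N : ℝ) / (N : ℝ)) atTop (𝓝 (1 / (b : ℝ) ^ k))

def Normal (b : ℕ) (x : ℝ) : Prop := ∀ k : ℕ, 1 ≤ k → Freq b k x

lemma vis_add {ι : Type*} (S : Finset ι) (u : ι → ℝ) (r s t : ℝ) (h1 : r ≤ s) (h2 : s ≤ t) :
    vis S u r t = vis S u r s + vis S u s t := by
  classical
  unfold vis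
  rw [← card_union_of_disjoint]
  · congr 1
    ext n
    simp only [mem_filter, mem_union]
    constructor
    · rintro ⟨h3, h4, h5⟩
      rcases lt_or_ge (Int.fract (u n)) s with h6 | h6
      · exact Or.inl ⟨h3, h4, h6⟩
      · exact Or.inr ⟨h3, h6, h5⟩
    · rintro (⟨h3, h4, h5⟩ | ⟨h3, h4, h5⟩)
      · exact ⟨h3, h4, h5.trans_le h2⟩
      · exact ⟨h3, h1.trans h4, h5⟩
  · rw [disjoint_left]
    intro n h3 h4
    exact absurd (mem_filter.1 h3).2.2 (not_lt.2 (mem_filter.1 h4).2.1)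

lemma vis_mono {ι : Type*} (S : Finset ι) (u : ι → ℝ) (r s t v : ℝ) (h1 : r ≤ s) (h2 : t ≤ v) :
    vis S u s t ≤ vis S u r v := by
  unfold vis
  apply card_le_card
  intro n hn
  rw [mem_filter] at hn ⊢
  exact ⟨hn.1, h1.trans hn.2.1, hn.2.2.trans_le h2⟩

lemma ud_of_cells (b : ℕ) (hb : 2 ≤ b) (u : ℕ → ℝ) (h : ∀ k, 1 ≤ k → ∀ a < b ^ k,
    Tendsto (fun N : ℕ => (vis (range N) u ((a : ℝ) / (b ^ k : ℕ)) (((a : ℝ) + 1) / (b ^ k : ℕ)) : ℝ)
      / N) atTop (𝓝 (1 / (b : ℝ) ^ k))) : UD u := by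
  have hbR : (2 : ℝ) ≤ b := by exact_mod_cast hb
  have hcells : ∀ k, 1 ≤ k → ∀ A C : ℕ, A ≤ C → C ≤ b ^ k →
      Tendsto (fun N : ℕ => (vis (range N) u ((A : ℝ) / (b ^ k : ℕ)) ((C : ℝ) / (b ^ k : ℕ)) : ℝ)
      / N) atTop (𝓝 (((C : ℝ) - A) / (b : ℝ) ^ k)) := by
    intro k hk A C hAC
    induction C, hAC using Nat.le_induction with
    | base =>
      intro _
      have e : ∀ N : ℕ, (vis (range N) u ((A : ℝ) / (b ^ k : ℕ)) ((A : ℝ) / (b ^ k : ℕ)) : ℝ) / N = 0 := by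
        intro N
        unfold vis
        rw [filter_eq_empty_iff.2 (fun n _ h => absurd h.1 (not_le.2 h.2))]
        simp
      simp only [e, sub_self, zero_div]
      exact tendsto_const_nhds
    | succ C hAC ih =>
      intro hC
      have h1 := (ih (by omega)).add (h k hk C (by omega))
      have e : ((C : ℝ) - A) / (b : ℝ) ^ k + 1 / (b : ℝ) ^ k = (((C + 1 : ℕ) : ℝ) - A) / (b : ℝ) ^ k := by
        push_cast
        ring
      rw [e] at h1
      refine h1.congr fun N => ?_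
      rw [← add_div]
      congr 1
      have hpos : (0 : ℝ) < ((b ^ k : ℕ) : ℝ) := by positivity
      have h2 := vis_add (range N) u ((A : ℝ) / (b ^ k : ℕ)) ((C : ℝ) / (b ^ k : ℕ))
        (((C : ℝ) + 1) / (b ^ k : ℕ)) (div_le_div_of_nonneg_right (by exact_mod_cast hAC) hpos.le)
        (div_le_div_of_nonneg_right (by linarith) hpos.le)
      push_cast at h2 ⊢
      rw [h2]
      push_cast
      ring
  intro s t h0 h1 h2
  rw [Metric.tendsto_atTop]
  intro ε hε
  obtain ⟨k', hk'⟩ := exists_pow_lt_of_lt_one (show (0 : ℝ) < ε / 8 by positivity)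
    (show (1 / 2 : ℝ) < 1 by norm_num)
  set k := k' + 1 with hk
  set P : ℕ := b ^ k with hP
  have hP0 : 0 < P := by positivity
  have hPR : (0 : ℝ) < P := by exact_mod_cast hP0
  have hPb : (P : ℝ) = (b : ℝ) ^ k := by rw [hP]; push_cast; ring
  have hPε : 1 / (P : ℝ) < ε / 8 := by
    refine lt_of_le_of_lt ?_ hk'
    rw [hPb, one_div_pow]
    apply one_div_le_one_div_of_le (by positivity)
    calc (2 : ℝ) ^ k' ≤ 2 ^ k := pow_le_pow_right₀ (by norm_num) (by omega)
      _ ≤ (b : ℝ) ^ k := pow_le_pow_left₀ (by norm_num) hbR _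
  set A := ⌊s * P⌋₊ with hA
  set C := ⌊t * P⌋₊ with hC
  have hA1 : (A : ℝ) ≤ s * P := Nat.floor_le (mul_nonneg h0 hPR.le)
  have hA2 : s * P < A + 1 := Nat.lt_floor_add_one _
  have hC1 : (C : ℝ) ≤ t * P := Nat.floor_le (mul_nonneg (h0.trans h1) hPR.le)
  have hC2 : t * P < C + 1 := Nat.lt_floor_add_one _
  have hAC : A ≤ C := Nat.floor_mono (mul_le_mul_of_nonneg_right h1 hPR.le)
  have hCP : C ≤ P := by
    have : (C : ℝ) ≤ P := by nlinarith
    exact_mod_cast this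
  -- the upper bound
  have hup : ∀ᶠ N : ℕ in atTop, (vis (range N) u s t : ℝ) / N < t - s + ε := by
    set C' := min (C + 1) P with hC'
    have hlim := hcells k (by omega) A C' (by omega) (min_le_right _ _)
    rw [← hPb] at hlim
    have hC'1 : (C' : ℝ) ≤ C + 1 := by exact_mod_cast min_le_left (C + 1) P
    have hval : ((C' : ℝ) - A) / P < t - s + ε := by
      rw [div_lt_iff₀ hPR]
      rw [div_lt_iff₀ hPR] at hPε
      nlinarith
    filter_upwards [hlim.eventually (gt_mem_nhds hval)] with N hN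
    refine lt_of_le_of_lt ?_ hN
    apply div_le_div_of_nonneg_right _ (Nat.cast_nonneg _)
    have := vis_mono (range N) u ((A : ℝ) / P) s t ((C' : ℝ) / P)
      (by rw [div_le_iff₀ hPR]; exact hA1) (by
        rw [le_div_iff₀ hPR]
        rcases min_cases (C + 1) P with ⟨h5, _⟩ | ⟨h5, _⟩
        · rw [hC', h5]
          push_cast
          exact hC2.le
        · rw [hC', h5]
          nlinarith)
    exact_mod_cast this
  have hlow : ∀ᶠ N : ℕ in atTop, t - s - ε < (vis (range N) u s t : ℝ) / N := by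
    rcases Nat.lt_or_ge C (A + 1) with h5 | h5
    · have h6 : t - s - ε < 0 := by
        have h7 : (C : ℝ) < A + 1 := by exact_mod_cast h5
        rw [div_lt_iff₀ hPR] at hPε
        by_contra hcon
        push Not at hcon
        have : ε * P ≤ (t - s) * P := by nlinarith
        nlinarith
      filter_upwards with N
      have : (0 : ℝ) ≤ (vis (range N) u s t : ℝ) / N := by positivity
      linarith
    · have hlim := hcells k (by omega) (A + 1) C h5 hCP
      rw [← hPb] at hlim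
      push_cast at hlim
      have hval : t - s - ε < ((C : ℝ) - (A + 1)) / P := by
        rw [lt_div_iff₀ hPR]
        rw [div_lt_iff₀ hPR] at hPε
        nlinarith
      filter_upwards [hlim.eventually (lt_mem_nhds hval)] with N hN
      refine lt_of_lt_of_le hN ?_
      apply div_le_div_of_nonneg_right _ (Nat.cast_nonneg _)
      have := vis_mono (range N) u s (((A : ℝ) + 1) / P) ((C : ℝ) / P) t
        (by rw [le_div_iff₀ hPR]; exact hA2.le) (by rw [div_le_iff₀ hPR]; exact hC1)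
      exact_mod_cast this
  obtain ⟨N₀, hN₀⟩ := eventually_atTop.1 (hup.and hlow)
  refine ⟨N₀, fun N hN => ?_⟩
  obtain ⟨h5, h6⟩ := hN₀ N hN
  rw [Real.dist_eq, abs_lt]
  unfold vis at h5 h6
  constructor <;> linarith

end Pool.Agent.N915.ML
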